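import Pool.Agent.Y460.KH.Fin
import Pool.Agent.H552R3.Tsen.Zero

set_option autoImplicit false

/-!
# Sharpness: entire curves for degree less than `n`
-/

namespace Pool.Agent.Y460.KH

open MvPolynomial

/-- degree of an exponent in the variables other than the first two -/
def hi (n : ℕ) (α : Fin (n + 2) →₀ ℕ) : ℕ := ∑ i : Fin n, α i.succ.succ

/-- the part of `F` of degree `m` in the variables other than the first two -/
noncomputable def part (n d m : ℕ) (F : MvPolynomial (Fin (n + 2)) ℂ) :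
    MvPolynomial (Fin (n + 2)) ℂ :=
  ∑ α ∈ (Dl (n + 2) d).filter (fun α => hi n α = m), monomial α (F.coeff α)

theorem hi_le {n d : ℕ} {α : Fin (n + 2) →₀ ℕ} (h : α ∈ Dl (n + 2) d) : hi n α ≤ d := by
  rw [mem_Dl, Fin.sum_univ_succ, Fin.sum_univ_succ] at h
  unfold hi
  omega

theorem eval_part (n d m : ℕ) (F : MvPolynomial (Fin (n + 2)) ℂ) (x : Fin (n + 2) → ℂ) :
    eval x (part n d m F) = ∑ α ∈ (Dl (n + 2) d).filter (fun α => hi n α = m),
      F.coeff α * ∏ i, x i ^ α i := by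
  unfold part
  rw [map_sum]
  refine Finset.sum_congr rfl fun α _ => ?_
  rw [eval_monomial, Finsupp.prod_fintype _ _ (fun i => pow_zero _)]

theorem eval_scale {n d : ℕ} {F : MvPolynomial (Fin (n + 2)) ℂ} (hF : F.IsHomogeneous d)
    (v : Fin 2 → ℂ) (w : Fin n → ℂ) (t : ℂ) :
    eval (Fin.cons (v 0) (Fin.cons (v 1) fun i => t * w i) : Fin (n + 2) → ℂ) F =
      ∑ m ∈ Finset.range (d + 1), t ^ m *
        eval (Fin.cons (v 0) (Fin.cons (v 1) w) : Fin (n + 2) → ℂ) (part n d m F) := by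
  classical
  have h1 := congrArg (eval (Fin.cons (v 0) (Fin.cons (v 1) fun i => t * w i) :
    Fin (n + 2) → ℂ)) (expand hF)
  rw [h1, map_sum]
  have h2 : ∀ α ∈ Dl (n + 2) d, hi n α ∈ Finset.range (d + 1) := by
    intro α hα
    rw [Finset.mem_range]
    have := hi_le hα
    omega
  rw [← Finset.sum_fiberwise_of_maps_to h2]
  refine Finset.sum_congr rfl fun m _ => ?_
  rw [eval_part, Finset.mul_sum]
  refine Finset.sum_congr rfl fun α hα => ?_
  rw [Finset.mem_filter] at hα
  rw [eval_monomial, Finsupp.prod_fintype _ _ (fun i => pow_zero _)]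
  rw [Fin.prod_univ_succ, Fin.prod_univ_succ, Fin.prod_univ_succ (n := n + 1),
    Fin.prod_univ_succ (n := n)]
  simp only [Fin.cons_zero, Fin.cons_succ]
  have h3 : ∏ i : Fin n, (t * w i) ^ α i.succ.succ = t ^ m * ∏ i : Fin n, w i ^ α i.succ.succ := by
    simp_rw [mul_pow]
    rw [Finset.prod_mul_distrib, Finset.prod_pow_eq_pow_sum]
    congr 2
    exact hα.2
  rw [h3]
  ring

/-- a root of the part in the first two variables, and of all the other parts -/
theorem exists_lambda {n d : ℕ} (hd : 1 ≤ d) (hdn : d < n) (F : MvPolynomial (Fin (n + 2)) ℂ) :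
    ∃ (v : Fin 2 → ℂ) (w : Fin n → ℂ), v ≠ 0 ∧ w ≠ 0 ∧
      ∀ m ≤ d, eval (Fin.cons (v 0) (Fin.cons (v 1) w) : Fin (n + 2) → ℂ) (part n d m F) = 0 := by
  classical
  -- the part `m = 0`
  have h0 : ∀ (v : Fin 2 → ℂ) (w : Fin n → ℂ),
      eval (Fin.cons (v 0) (Fin.cons (v 1) w) : Fin (n + 2) → ℂ) (part n d 0 F) =
        eval (Fin.cons (v 0) (Fin.cons (v 1) 0) : Fin (n + 2) → ℂ) (part n d 0 F) := by
    intro v w
    rw [eval_part, eval_part]
    refine Finset.sum_congr rfl fun α hα => ?_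
    rw [Finset.mem_filter] at hα
    congr 1
    rw [Fin.prod_univ_succ, Fin.prod_univ_succ, Fin.prod_univ_succ (n := n + 1),
      Fin.prod_univ_succ (n := n)]
    simp only [Fin.cons_zero, Fin.cons_succ]
    congr 2
    refine Finset.prod_congr rfl fun i _ => ?_
    have h1 : α i.succ.succ = 0 := by
      have h2 : (∑ i : Fin n, α i.succ.succ) = 0 := hα.2
      exact Finset.sum_eq_zero_iff.1 h2 i (Finset.mem_univ i)
    rw [h1, pow_zero, pow_zero]
  -- the first root
  let P : Fin 1 → MvPolynomial (Fin 2) ℂ := fun _ =>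
    bind₁ (Fin.cons (X 0) (Fin.cons (X 1) 0) : Fin (n + 2) → MvPolynomial (Fin 2) ℂ)
      (part n d 0 F)
  have hPe : ∀ (v : Fin 2 → ℂ) (u : Fin 1), eval v (P u) =
      eval (Fin.cons (v 0) (Fin.cons (v 1) 0) : Fin (n + 2) → ℂ) (part n d 0 F) := by
    intro v u
    show eval₂Hom (RingHom.id ℂ) v (bind₁ _ _) = _
    rw [eval₂Hom_bind₁]
    have : (fun i => (eval₂Hom (RingHom.id ℂ) v)
        ((Fin.cons (X 0) (Fin.cons (X 1) 0) : Fin (n + 2) → MvPolynomial (Fin 2) ℂ) i)) =
        (Fin.cons (v 0) (Fin.cons (v 1) 0) : Fin (n + 2) → ℂ) := by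
      funext i
      refine Fin.cases ?_ (fun i => Fin.cases ?_ (fun i => ?_) i) i
      · simp
      · simp
      · simp
    rw [this]
    rfl
  obtain ⟨v, hv, hv'⟩ := Pool.Agent.H552R3.Tsen.exists_common_zero P (by
    intro u
    rw [hPe _ u, eval_part]
    refine Finset.sum_eq_zero fun α hα => ?_
    rw [Finset.mem_filter] at hα
    have h1 := hα.1
    rw [mem_Dl] at h1
    obtain ⟨i, hi'⟩ : ∃ i, α i ≠ 0 := by
      by_contra hcon
      push Not at hcon
      rw [Finset.sum_eq_zero fun i _ => hcon i] at h1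
      omega
    rw [Finset.prod_eq_zero (Finset.mem_univ i), mul_zero]
    have : (Fin.cons ((0 : Fin 2 → ℂ) 0) (Fin.cons ((0 : Fin 2 → ℂ) 1) 0) :
        Fin (n + 2) → ℂ) i = 0 := by
      refine Fin.cases ?_ (fun i => Fin.cases ?_ (fun i => ?_) i) i
      · simp
      · simp
      · simp
    rw [this, zero_pow hi']) (by simp)
  -- the second root
  let Q : Fin d → MvPolynomial (Fin n) ℂ := fun m =>
    bind₁ (Fin.cons (C (v 0)) (Fin.cons (C (v 1)) X) : Fin (n + 2) → MvPolynomial (Fin n) ℂ)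
      (part n d (m + 1) F)
  have hQe : ∀ (w : Fin n → ℂ) (m : Fin d), eval w (Q m) =
      eval (Fin.cons (v 0) (Fin.cons (v 1) w) : Fin (n + 2) → ℂ) (part n d (m + 1) F) := by
    intro w m
    show eval₂Hom (RingHom.id ℂ) w (bind₁ _ _) = _
    rw [eval₂Hom_bind₁]
    have : (fun i => (eval₂Hom (RingHom.id ℂ) w)
        ((Fin.cons (C (v 0)) (Fin.cons (C (v 1)) X) : Fin (n + 2) → MvPolynomial (Fin n) ℂ) i)) =
        (Fin.cons (v 0) (Fin.cons (v 1) w) : Fin (n + 2) → ℂ) := by
      funext i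
      refine Fin.cases ?_ (fun i => Fin.cases ?_ (fun i => ?_) i) i
      · simp
      · simp
      · simp
    rw [this]
    rfl
  obtain ⟨w, hw, hw'⟩ := Pool.Agent.H552R3.Tsen.exists_common_zero Q (by
    intro m
    rw [hQe, eval_part]
    refine Finset.sum_eq_zero fun α hα => ?_
    rw [Finset.mem_filter] at hα
    have h1 : (∑ i : Fin n, α i.succ.succ) = m + 1 := hα.2
    obtain ⟨i, hi'⟩ : ∃ i : Fin n, α i.succ.succ ≠ 0 := by
      by_contra hcon
      push Not at hcon
      rw [Finset.sum_eq_zero fun i _ => hcon i] at h1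
      omega
    rw [Finset.prod_eq_zero (Finset.mem_univ i.succ.succ), mul_zero]
    simp only [Fin.cons_succ, Pi.zero_apply]
    rw [zero_pow hi']) (by simpa using hdn)
  refine ⟨v, w, hv, hw, ?_⟩
  intro m hm
  rcases Nat.eq_zero_or_pos m with rfl | hm0
  · rw [h0, ← hPe v 0]
    exact hv' 0
  · have h1 := hw' ⟨m - 1, by omega⟩
    rw [hQe] at h1
    have h2 : ((⟨m - 1, by omega⟩ : Fin d) : ℕ) + 1 = m := by
      show m - 1 + 1 = m
      omega
    rw [h2] at h1
    exact h1

/-- degree less than `n`: every power cover contains a nonconstant entire curve -/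
theorem sharp (n d k : ℕ) (hd : 1 ≤ d) (hdn : d < n) (hk : 1 ≤ k)
    (F : MvPolynomial (Fin (n + 2)) ℂ) (hF : F.IsHomogeneous d) :
    ∃ h : ℂ → Fin (n + 2) → ℂ, Curve h ∧ (∀ z, eval (fun l => h z l ^ k) F = 0) ∧
      ¬ Const h ∧ Curve (fun z l => h z l ^ k) ∧ ¬ Const (fun z l => h z l ^ k) := by
  obtain ⟨v, w, hv, hw, h0⟩ := exists_lambda hd hdn F
  have hroot : ∀ x : ℂ, ∃ y : ℂ, y ^ k = x := fun x => IsAlgClosed.exists_pow_nat_eq x (by omega)
  obtain ⟨a, ha⟩ := hroot (v 0)
  obtain ⟨b, hb⟩ := hroot (v 1)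
  choose c hc using fun i => hroot (w i)
  have hpow : ∀ z : ℂ, (fun l => (Fin.cons a (Fin.cons b fun i => z * c i) :
      Fin (n + 2) → ℂ) l ^ k) =
      (Fin.cons (v 0) (Fin.cons (v 1) fun i => z ^ k * w i) : Fin (n + 2) → ℂ) := by
    intro z
    funext i
    refine Fin.cases ?_ (fun i => Fin.cases ?_ (fun i => ?_) i) i
    · simp [ha]
    · simp [hb]
    · simp [mul_pow, hc]
  have hdiff : Differentiable ℂ fun z : ℂ => (Fin.cons a (Fin.cons b fun i => z * c i) :
      Fin (n + 2) → ℂ) := by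
    rw [differentiable_pi]
    intro i
    refine Fin.cases ?_ (fun i => Fin.cases ?_ (fun i => ?_) i) i
    · simp
    · simp
    · simp only [Fin.cons_succ]
      exact differentiable_id.mul_const _
  have hv01 : v 0 ≠ 0 ∨ v 1 ≠ 0 := by
    by_contra hcon
    push Not at hcon
    apply hv
    funext i
    fin_cases i
    · exact hcon.1
    · exact hcon.2
  obtain ⟨i0, hi0⟩ : ∃ i, w i ≠ 0 := by
    by_contra hcon
    push Not at hcon
    exact hw (funext hcon)
  have hne : ∀ z : ℂ, (fun l => (Fin.cons a (Fin.cons b fun i => z * c i) :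
      Fin (n + 2) → ℂ) l ^ k) ≠ 0 := by
    intro z h1
    rw [hpow] at h1
    rcases hv01 with h2 | h2
    · exact h2 (congrFun h1 0)
    · exact h2 (congrFun h1 (Fin.succ 0))
  have hnc : ¬ Const (fun z : ℂ => fun l => (Fin.cons a (Fin.cons b fun i => z * c i) :
      Fin (n + 2) → ℂ) l ^ k) := by
    intro h1
    obtain ⟨e, he⟩ := h1 1
    have h2 := congrFun he i0.succ.succ
    simp only [Fin.cons_succ, Pi.smul_apply, smul_eq_mul, one_mul, zero_mul, hc] at h2
    rw [zero_pow (by omega), mul_zero] at h2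
    exact hi0 h2
  refine ⟨fun z => (Fin.cons a (Fin.cons b fun i => z * c i) : Fin (n + 2) → ℂ), ⟨hdiff, ?_⟩,
    ?_, ?_, ⟨?_, hne⟩, hnc⟩
  · intro z h1
    apply hne z
    funext l
    have h2 := congrFun h1 l
    simp only [Pi.zero_apply] at h2 ⊢
    rw [h2]
    exact zero_pow (by omega)
  · intro z
    show eval (fun l => (Fin.cons a (Fin.cons b fun i => z * c i) : Fin (n + 2) → ℂ) l ^ k) F = 0
    rw [hpow, eval_scale hF]
    refine Finset.sum_eq_zero fun m hm => ?_
    rw [Finset.mem_range] at hm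
    rw [h0 m (by omega), mul_zero]
  · intro h1
    apply hnc
    intro z
    obtain ⟨e, he⟩ := h1 z
    refine ⟨e ^ k, ?_⟩
    funext l
    have h2 := congrFun he l
    simp only [Pi.smul_apply, smul_eq_mul] at h2 ⊢
    rw [h2, mul_pow]
  · rw [differentiable_pi]
    intro l
    exact (differentiable_pi.1 hdiff l).pow k

end Pool.Agent.Y460.KH
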