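import Mathlib

set_option autoImplicit false

/-!
# General hypersurfaces: the algebraic part (a dimension count)
-/

namespace Pool.Agent.Y460.KH

open MvPolynomial

/-- exponents of degree `d` in `N` variables -/
abbrev Dl (N d : ℕ) : Finset (Fin N →₀ ℕ) := Finset.univ.finsuppAntidiag d

theorem mem_Dl {N d : ℕ} {α : Fin N →₀ ℕ} : α ∈ Dl N d ↔ ∑ i, α i = d := by
  simp [Dl, Finset.mem_finsuppAntidiag]

theorem card_Dl (N d : ℕ) : (Dl N d).card = (N + d - 1).choose d := by
  simp [Dl, Finset.card_finsuppAntidiag_nat_eq_choose]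

/-- A family of vectors depending linearly on a subspace `V` and polynomially on `p` parameters,
with `dim V + p` less than the number of coordinates, satisfies a polynomial equation. -/
theorem alg_core {Δ : Type} [Fintype Δ] [DecidableEq Δ] {p : ℕ} (V : Submodule ℂ (Δ → ℂ))
    (hV : Module.finrank ℂ V + p < Fintype.card Δ) (Q : Δ → Δ → MvPolynomial (Fin p) ℂ) :
    ∃ P : MvPolynomial Δ ℂ, P ≠ 0 ∧ ∀ c ∈ V, ∀ t : Fin p → ℂ,
      eval (fun γ => ∑ α, c α * eval t (Q α γ)) P = 0 := by
  let b := Module.finBasis ℂ V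
  let y : Δ → MvPolynomial (Fin (Module.finrank ℂ V) ⊕ Fin p) ℂ := fun γ =>
    ∑ m, X (Sum.inl m) * ∑ α, C ((b m : Δ → ℂ) α) * rename Sum.inr (Q α γ)
  have hna : ¬ AlgebraicIndependent ℂ y := by
    intro h
    have h1 := h.lift_cardinalMk_le_trdeg
    rw [MvPolynomial.trdeg_of_isDomain] at h1
    simp only [Cardinal.mk_fintype, Cardinal.lift_natCast, Nat.cast_le, Fintype.card_sum,
      Fintype.card_fin] at h1
    omega
  rw [algebraicIndependent_iff] at hna
  push Not at hna
  obtain ⟨P, hP, hP0⟩ := hna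
  refine ⟨P, hP0, ?_⟩
  intro c hc t
  let a : Fin (Module.finrank ℂ V) → ℂ := fun m => b.repr ⟨c, hc⟩ m
  have hca : ∀ α, c α = ∑ m, a m * (b m : Δ → ℂ) α := by
    intro α
    have h1 := b.sum_repr ⟨c, hc⟩
    have h2 := congrArg (fun v : V => (v : Δ → ℂ) α) h1
    simp only [Submodule.coe_sum, Submodule.coe_smul, Finset.sum_apply, Pi.smul_apply,
      smul_eq_mul] at h2
    exact h2.symm
  have h2 := congrArg (eval (Sum.elim a t)) hP
  rw [map_zero, MvPolynomial.map_aeval] at h2
  have h3 : ((eval (Sum.elim a t)).comp (algebraMap ℂ (MvPolynomial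
      (Fin (Module.finrank ℂ V) ⊕ Fin p) ℂ))) = RingHom.id ℂ := by
    ext x
    simp [MvPolynomial.algebraMap_eq]
  rw [h3] at h2
  have h4 : (fun γ => ∑ α, c α * eval t (Q α γ)) = fun γ => eval (Sum.elim a t) (y γ) := by
    funext γ
    simp only [y, map_sum, map_mul, eval_X, eval_C, Sum.elim_inl, eval_rename]
    have h5 : (Sum.elim a t) ∘ Sum.inr = t := by
      funext x
      rfl
    simp only [h5]
    simp_rw [Finset.mul_sum]
    rw [Finset.sum_comm]
    refine Finset.sum_congr rfl fun α _ => ?_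
    rw [hca α, Finset.sum_mul]
    refine Finset.sum_congr rfl fun m _ => ?_
    ring
  rw [h4]
  exact h2

/-- the exponent `a e_i + (d - a) e_j` -/
noncomputable def al {N : ℕ} (i j : Fin N) (d a : ℕ) : Fin N →₀ ℕ :=
  Finsupp.single i a + Finsupp.single j (d - a)

theorem al_mem {N : ℕ} (i j : Fin N) {d a : ℕ} (ha : a ≤ d) : al i j d a ∈ Dl N d := by
  rw [mem_Dl]
  simp only [al, Finsupp.add_apply, Finset.sum_add_distrib]
  rw [Finset.sum_eq_single i, Finset.sum_eq_single j]
  · simp
    omega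
  · intro b _ hb
    simp [hb.symm]
  · simp
  · intro b _ hb
    simp [hb.symm]
  · simp

/-- expansion of a homogeneous polynomial -/
theorem expand {N d : ℕ} {G : MvPolynomial (Fin N) ℂ} (hG : G.IsHomogeneous d) :
    G = ∑ α ∈ Dl N d, monomial α (G.coeff α) := by
  ext m
  rw [coeff_sum]
  simp only [coeff_monomial]
  rw [Finset.sum_ite_eq']
  split_ifs with h
  · rfl
  · by_contra hne
    apply h
    rw [mem_Dl]
    have h1 := hG hne
    rw [← h1, Finsupp.weight_apply, Finsupp.sum_fintype]
    · simp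
    · simp

/-- substitution of linear forms -/
noncomputable def sub {N : ℕ} (B : Fin N → Fin N → ℂ) (G : MvPolynomial (Fin N) ℂ) :
    MvPolynomial (Fin N) ℂ :=
  bind₁ (fun l => ∑ m, C (B l m) * X m) G

theorem eval_sub {N : ℕ} (B : Fin N → Fin N → ℂ) (G : MvPolynomial (Fin N) ℂ) (x : Fin N → ℂ) :
    eval x (sub B G) = eval (fun l => ∑ m, B l m * x m) G := by
  unfold sub
  rw [show eval x (bind₁ (fun l => ∑ m, C (B l m) * X m) G) =
    eval₂Hom (RingHom.id ℂ) x (bind₁ (fun l => ∑ m, C (B l m) * X m) G) from rfl,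
    eval₂Hom_bind₁]
  have : (fun i => (eval₂Hom (RingHom.id ℂ) x) (∑ m, C (B i m) * X m)) =
      fun l => ∑ m, B l m * x m := by
    funext i
    simp
  rw [this]
  rfl

theorem sub_homogeneous {N d : ℕ} (B : Fin N → Fin N → ℂ) {G : MvPolynomial (Fin N) ℂ}
    (hG : G.IsHomogeneous d) : (sub B G).IsHomogeneous d := by
  rw [expand hG]
  unfold sub
  rw [map_sum]
  refine MvPolynomial.IsHomogeneous.sum _ _ _ fun α hα => ?_
  rw [bind₁_monomial]
  have h1 : d = 0 + ∑ l ∈ α.support, 1 * α l := by
    rw [mem_Dl] at hα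
    rw [← hα, zero_add]
    simp only [one_mul]
    refine (Finset.sum_subset (Finset.subset_univ _) ?_).symm
    intro x _ hx
    simpa using hx
  rw [h1]
  refine (isHomogeneous_C _ _).mul ?_
  refine MvPolynomial.IsHomogeneous.prod _ _ _ fun l _ => ?_
  refine MvPolynomial.IsHomogeneous.pow ?_ _
  refine MvPolynomial.IsHomogeneous.sum _ _ _ fun m _ => ?_
  simpa using (isHomogeneous_C (Fin N) (B l m)).mul (isHomogeneous_X ℂ m)

/-- **The dimension count**: forms `G ∘ B(t)`, where the sums of the coefficients of `G` over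
`d + 1` classes of exponents vanish and `B(t)` depends polynomially on `p ≤ d` parameters, satisfy
a polynomial equation. -/
theorem type_poly {N d p : ℕ} (hp : p ≤ d) (i j : Fin N)
    (κ : (Fin N →₀ ℕ) → ℕ) (hκ : ∀ a ≤ d, κ (al i j d a) = a)
    (β : Fin N → Fin N → MvPolynomial (Fin p) ℂ) :
    ∃ P : MvPolynomial (Dl N d) ℂ, P ≠ 0 ∧ ∀ G : MvPolynomial (Fin N) ℂ, G.IsHomogeneous d →
      (∀ a ≤ d, ∑ α ∈ (Dl N d).filter (fun α => κ α = a), G.coeff α = 0) →
      ∀ t : Fin p → ℂ,
        eval (fun γ : Dl N d => (sub (fun l m => eval t (β l m)) G).coeff γ) P = 0 := by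
  classical
  -- the linear conditions
  let φ : (Dl N d → ℂ) →ₗ[ℂ] (Fin (d + 1) → ℂ) :=
    { toFun := fun c a => ∑ α : Dl N d, if κ α = a then c α else 0
      map_add' := by
        intro c c'
        funext a
        simp only [Pi.add_apply]
        rw [← Finset.sum_add_distrib]
        refine Finset.sum_congr rfl fun α _ => ?_
        split_ifs <;> simp
      map_smul' := by
        intro s c
        funext a
        simp only [Pi.smul_apply, smul_eq_mul, RingHom.id_apply]
        rw [Finset.mul_sum]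
        refine Finset.sum_congr rfl fun α _ => ?_
        split_ifs <;> simp }
  have hφ : Function.Surjective φ := by
    intro v
    refine ⟨fun α => if h : κ α < d + 1 ∧ (α : Fin N →₀ ℕ) = al i j d (κ α) then v ⟨κ α, h.1⟩
      else 0, ?_⟩
    funext a
    show (∑ α : Dl N d, if κ α = (a : ℕ) then _ else 0) = v a
    have ha : (a : ℕ) ≤ d := by omega
    rw [Finset.sum_eq_single ⟨al i j d a, al_mem i j ha⟩]
    · have h0 : κ (al i j d a) < d + 1 := by
        rw [hκ a ha]
        exact a.2
      simp only [hκ a ha, if_true]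
      rw [dif_pos ⟨a.2, trivial⟩]
    · intro α _ hα
      split_ifs with h1 h2
      · exfalso
        apply hα
        apply Subtype.ext
        rw [h2.2, h1]
      · rfl
      · rfl
    · simp
  have hrk : Module.finrank ℂ (LinearMap.ker φ) + p < Fintype.card (Dl N d) := by
    have h1 := LinearMap.finrank_range_add_finrank_ker φ
    rw [LinearMap.range_eq_top.2 hφ, finrank_top] at h1
    simp only [Module.finrank_fintype_fun_eq_card, Fintype.card_fin] at h1
    omega
  let Q : Dl N d → Dl N d → MvPolynomial (Fin p) ℂ := fun α γ =>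
    coeff (γ : Fin N →₀ ℕ) (∏ l, (∑ m, C (β l m) * X m) ^ ((α : Fin N →₀ ℕ) l) :
      MvPolynomial (Fin N) (MvPolynomial (Fin p) ℂ))
  obtain ⟨P, hP, hP'⟩ := alg_core (LinearMap.ker φ) hrk Q
  refine ⟨P, hP, ?_⟩
  intro G hG hGa t
  have hc : (fun α : Dl N d => G.coeff α) ∈ LinearMap.ker φ := by
    rw [LinearMap.mem_ker]
    funext a
    show (∑ α : Dl N d, if κ α = (a : ℕ) then G.coeff α else 0) = 0
    have h1 := hGa a (by omega)
    rw [Finset.sum_filter, ← Finset.sum_coe_sort] at h1
    exact h1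
  have h1 := hP' _ hc t
  have h2 : (fun γ : Dl N d => (sub (fun l m => eval t (β l m)) G).coeff γ) =
      fun γ : Dl N d => ∑ α : Dl N d, G.coeff α * eval t (Q α γ) := by
    funext γ
    conv_lhs => rw [expand hG]
    unfold sub
    rw [map_sum, coeff_sum, ← Finset.sum_coe_sort]
    refine Finset.sum_congr rfl fun α _ => ?_
    rw [bind₁_monomial, coeff_C_mul]
    congr 1
    show _ = eval t (coeff (γ : Fin N →₀ ℕ) _)
    rw [← coeff_map]
    congr 1
    rw [map_prod, ← Finset.prod_subset (Finset.subset_univ (α : Fin N →₀ ℕ).support)]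
    · refine Finset.prod_congr rfl fun l _ => ?_
      simp
    · intro l _ hl
      have h3 : (α : Fin N →₀ ℕ) l = 0 := by simpa using hl
      rw [h3, pow_zero, map_one]
  rw [h2]
  exact h1

end Pool.Agent.Y460.KH
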