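import Pool.Agent.Y460.KH.Pow

set_option autoImplicit false

/-!
# General hypersurfaces: entire curves give degenerate forms
-/

namespace Pool.Agent.Y460.KH

open MvPolynomial Pool.Agent.H159R3.NV

theorem Hm_logDeriv {N : ℕ} (g : Fin N → ℂ → ℂ) (hg : ∀ l, Differentiable ℂ (g l)) {z0 : ℂ}
    (h0 : ∀ l, g l z0 ≠ 0) (α : Fin N →₀ ℕ) :
    logDeriv (Hm g α) z0 = ∑ l, (α l : ℂ) * logDeriv (g l) z0 := by
  have h1 : Hm g α = fun z => ∏ l, (fun z => g l z ^ α l) z := rfl
  rw [h1, logDeriv_prod]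
  · refine Finset.sum_congr rfl fun l _ => ?_
    rw [logDeriv_fun_pow (hg l z0)]
  · intro l _
    exact pow_ne_zero _ (h0 l)
  · intro l _
    exact ((hg l) z0).pow _

/-- **Entire curves give degenerate forms.** -/
theorem analysis {N d k : ℕ} (hk : ((Dl N d).card - 1) ^ 2 ≤ k) (hk1 : 1 ≤ k)
    {F : MvPolynomial (Fin N) ℂ} (hF : F.IsHomogeneous d) (h : Fin N → ℂ → ℂ)
    (hh : ∀ l, Differentiable ℂ (h l)) (h0 : ∀ z, eval (fun l => h l z ^ k) F = 0)
    {i j : Fin N} (hi : ∃ z, h i z ≠ 0) (hj : ∃ z, h j z ≠ 0)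
    (hij : ∀ c : ℂ, ∃ z, h i z ≠ c * h j z) :
    ∃ κ : (Fin N →₀ ℕ) → ℕ, (∀ a ≤ d, κ (al i j d a) = a) ∧ (∀ α, κ α ≤ d + 1) ∧
      ∀ x y : ℂ, x ≠ 0 → y ≠ 0 → ∃ lam : Fin N → ℂ, (∀ l, lam l ≠ 0) ∧ lam i = x ∧ lam j = y ∧
        ∀ a ≤ d, ∑ α ∈ (Dl N d).filter (fun α => κ α = a), F.coeff α * ∏ l, lam l ^ α l = 0 := by
  classical
  have hne : i ≠ j := by
    intro h1
    obtain ⟨z, hz⟩ := hij 1
    apply hz
    rw [h1, one_mul]
  -- replace the zero functions by `1`
  obtain ⟨g, hg⟩ : ∃ g : Fin N → ℂ → ℂ, ∀ l, g l = if (∃ z, h l z ≠ 0) then h l else fun _ => 1 :=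
    ⟨_, fun _ => rfl⟩
  have hgd : ∀ l, Differentiable ℂ (g l) := by
    intro l
    rw [hg l]
    split_ifs
    · exact hh l
    · exact differentiable_const _
  have hgn : ∀ l, ∃ z, g l z ≠ 0 := by
    intro l
    rw [hg l]
    split_ifs with h1
    · exact h1
    · exact ⟨0, one_ne_zero⟩
  have hgi : g i = h i := by rw [hg, if_pos hi]
  have hgj : g j = h j := by rw [hg, if_pos hj]
  -- a good point
  obtain ⟨z0, hz0⟩ : ∃ z0, (∀ l, g l z0 ≠ 0) ∧
      deriv (h i) z0 * h j z0 - h i z0 * deriv (h j) z0 ≠ 0 := by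
    obtain ⟨z, hz⟩ := exists_common (Finset.univ : Finset (Option (Fin N)))
      (fun o => Option.elim o (fun z => deriv (h i) z * h j z - h i z * deriv (h j) z) g)
      (by
        rintro (_ | l)
        · exact (((hh i).deriv).mul (hh j)).sub ((hh i).mul ((hh j).deriv))
        · exact hgd l)
      (by
        rintro (_ | l) _
        · exact wronskian_ne (hh i) (hh j) hj hij
        · exact hgn l)
    exact ⟨z, fun l => hz (some l) (Finset.mem_univ _), hz none (Finset.mem_univ _)⟩
  obtain ⟨hz0, hW⟩ := hz0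
  -- exponents supported on the nonzero functions
  let T : Finset (Fin N →₀ ℕ) := (Dl N d).filter fun α => ∀ l, (¬ ∃ z, h l z ≠ 0) → α l = 0
  have hTm : ∀ α, α ∈ T ↔ α ∈ Dl N d ∧ ∀ l, (¬ ∃ z, h l z ≠ 0) → α l = 0 := fun α =>
    Finset.mem_filter
  have hTg : ∀ α ∈ T, Hm h α = Hm g α := by
    intro α hα
    funext z
    refine Finset.prod_congr rfl fun l _ => ?_
    by_cases hl : ∃ z, h l z ≠ 0
    · rw [hg l, if_pos hl]
    · rw [((hTm α).1 hα).2 l hl, pow_zero, pow_zero]
  have hTne : ∀ α ∈ T, Hm h α z0 ≠ 0 := by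
    intro α hα
    rw [hTg α hα]
    exact Finset.prod_ne_zero_iff.2 fun l _ => pow_ne_zero _ (hz0 l)
  have halT : ∀ a ≤ d, al i j d a ∈ T := by
    intro a ha
    rw [hTm]
    refine ⟨al_mem i j ha, fun l hl => ?_⟩
    have hli : l ≠ i := fun h1 => hl (h1 ▸ hi)
    have hlj : l ≠ j := fun h1 => hl (h1 ▸ hj)
    simp [al, hli, hlj]
  -- the relation
  have hrel : ∀ z, ∑ α ∈ T, F.coeff α * Hm h α z ^ k = 0 := by
    intro z
    have h1 := h0 z
    rw [expand hF, map_sum] at h1
    have h2 : ∀ α ∈ Dl N d, eval (fun l => h l z ^ k) (monomial α (F.coeff α)) =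
        F.coeff α * Hm h α z ^ k := by
      intro α _
      rw [eval_monomial]
      congr 1
      unfold Hm
      rw [Finsupp.prod_fintype _ _ (fun l => pow_zero _), ← Finset.prod_pow]
      refine Finset.prod_congr rfl fun l _ => ?_
      rw [← pow_mul, ← pow_mul, mul_comm]
    rw [Finset.sum_congr rfl h2] at h1
    rw [← h1]
    refine Finset.sum_subset (Finset.filter_subset _ _) ?_
    intro α hα hαT
    have h3 : ∃ l, (¬ ∃ z, h l z ≠ 0) ∧ α l ≠ 0 := by
      by_contra hcon
      push Not at hcon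
      apply hαT
      rw [hTm]
      refine ⟨hα, fun l hl => hcon l ?_⟩
      push Not at hl
      exact hl
    obtain ⟨l, hl, hαl⟩ := h3
    push Not at hl
    have h4 : Hm h α z = 0 := Finset.prod_eq_zero (Finset.mem_univ l) (by
      rw [hl z, zero_pow hαl])
    rw [h4, zero_pow (by omega), mul_zero]
  -- proportional classes
  have huniq : ∀ a ≤ d, ∀ b ≤ d, ∀ c : ℂ, c ≠ 0 →
      (∀ z, Hm h (al i j d a) z = c * Hm h (al i j d b) z) → a = b := by
    have key : ∀ a b : ℕ, a < b → b ≤ d → ∀ c : ℂ, c ≠ 0 →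
        (∀ z, Hm h (al i j d a) z = c * Hm h (al i j d b) z) → False := by
      intro a b hab hb c hc0 hc
      have h1 : ∀ z, (h i z ^ a * h j z ^ (d - b)) * (h j z ^ (b - a) - c * h i z ^ (b - a)) = 0 := by
        intro z
        have h2 := hc z
        rw [Hm_al h hne, Hm_al h hne] at h2
        have e1 : h j z ^ (d - a) = h j z ^ (d - b) * h j z ^ (b - a) := by
          rw [← pow_add]
          congr 1
          omega
        have e2 : h i z ^ b = h i z ^ a * h i z ^ (b - a) := by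
          rw [← pow_add]
          congr 1
          omega
        rw [e1, e2] at h2
        linear_combination h2
      rcases entire_dom (((hh i).pow a).mul ((hh j).pow (d - b)))
        (((hh j).pow (b - a)).sub (((hh i).pow (b - a)).const_mul c)) h1 with h2 | h2
      · obtain ⟨z, hz⟩ := exists_common (Finset.univ : Finset Bool)
          (fun o => bif o then h i else h j)
          (by rintro (_ | _)
              · exact hh j
              · exact hh i)
          (by rintro (_ | _) _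
              · exact hj
              · exact hi)
        have hz1 : h i z ≠ 0 := hz true (Finset.mem_univ _)
        have hz2 : h j z ≠ 0 := hz false (Finset.mem_univ _)
        exact mul_ne_zero (pow_ne_zero a hz1) (pow_ne_zero (d - b) hz2) (h2 z)
      · obtain ⟨c', hc'⟩ := prop_of_pow (hh i) (hh j) (m := b - a) (by omega) (c := c⁻¹) (by
          intro z
          have h3 : h j z ^ (b - a) - c * h i z ^ (b - a) = 0 := h2 z
          field_simp
          linear_combination -h3)
        obtain ⟨z, hz⟩ := hij c'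
        exact hz (hc' z)
    intro a ha b hb c hc0 hc
    rcases lt_trichotomy a b with h1 | h1 | h1
    · exact (key a b h1 hb c hc0 hc).elim
    · exact h1
    · exact (key b a h1 ha c⁻¹ (inv_ne_zero hc0) (fun z => by
        rw [hc z]
        field_simp)).elim
  let Pr : (Fin N →₀ ℕ) → ℕ → Prop := fun α a => a ≤ d ∧ α ∈ T ∧
    ∃ c : ℂ, ∀ z, Hm h α z = c * Hm h (al i j d a) z
  have hPr : ∀ α a b, Pr α a → Pr α b → a = b := by
    rintro α a b ⟨ha, hα, c, hc⟩ ⟨hb, -, c', hc'⟩
    have h1 : c ≠ 0 := by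
      intro h2
      apply hTne α hα
      rw [hc z0, h2, zero_mul]
    refine huniq a ha b hb (c⁻¹ * c') ?_ ?_
    · refine mul_ne_zero (inv_ne_zero h1) ?_
      intro h2
      apply hTne α hα
      rw [hc' z0, h2, zero_mul]
    · intro z
      have h3 := hc z
      rw [hc' z] at h3
      rw [mul_assoc, h3, inv_mul_cancel_left₀ h1]
  let κ : (Fin N →₀ ℕ) → ℕ := fun α => if h : ∃ a, Pr α a then h.choose else d + 1
  have hκ1 : ∀ α a, Pr α a → κ α = a := by
    intro α a ha
    have hex : ∃ a, Pr α a := ⟨a, ha⟩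
    have h1 : κ α = hex.choose := dif_pos hex
    rw [h1]
    exact hPr α _ _ hex.choose_spec ha
  have hκ2 : ∀ α a, a ≤ d → κ α = a → Pr α a := by
    intro α a ha h1
    by_cases hex : ∃ a, Pr α a
    · have h2 : κ α = hex.choose := dif_pos hex
      rw [← h1, h2]
      exact hex.choose_spec
    · have h2 : κ α = d + 1 := dif_neg hex
      omega
  -- the relations between the coefficients
  obtain ⟨μ, hμ⟩ : ∃ μ : Fin N → ℂ, ∀ l, μ l = g l z0 ^ k := ⟨_, fun _ => rfl⟩
  have hμT : ∀ α ∈ T, ∏ l, μ l ^ α l = Hm h α z0 ^ k := by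
    intro α hα
    rw [hTg α hα]
    unfold Hm
    rw [← Finset.prod_pow]
    refine Finset.prod_congr rfl fun l _ => ?_
    rw [hμ, ← pow_mul, ← pow_mul, mul_comm]
  have hcls : ∀ a ≤ d, ∑ α ∈ (Dl N d).filter (fun α => κ α = a), F.coeff α * ∏ l, μ l ^ α l = 0 := by
    intro a ha
    have h1 := powers_spec hk (Hm h) (Hm_diff h hh)
      (fun α => if Pr α a then ∏ l, μ l ^ α l else 0) T
      (by
        intro α hα β hβ c hc
        have hc0 : c ≠ 0 := by
          intro h2
          apply hTne α hα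
          rw [hc z0, h2, zero_mul]
        have h2 : Pr α a ↔ Pr β a := by
          constructor
          · rintro ⟨h3, -, c', hc'⟩
            refine ⟨h3, hβ, c⁻¹ * c', fun z => ?_⟩
            rw [mul_assoc, ← hc' z, hc z, inv_mul_cancel_left₀ hc0]
          · rintro ⟨h3, -, c', hc'⟩
            refine ⟨h3, hα, c * c', fun z => ?_⟩
            rw [hc z, hc' z, mul_assoc]
        by_cases h3 : Pr α a
        · simp only [if_pos h3, if_pos (h2.1 h3)]
          rw [hμT α hα, hμT β hβ, hc z0, mul_pow]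
        · simp only [if_neg h3, if_neg (fun h4 => h3 (h2.2 h4)), mul_zero])
      (fun α hα => ⟨z0, hTne α hα⟩) T (Finset.Subset.refl _)
      (Finset.card_le_card (Finset.filter_subset _ _)) (fun α => F.coeff α) hrel
    rw [← h1, Finset.sum_filter]
    symm
    have h2 : ∀ α ∈ T, F.coeff α * (if Pr α a then ∏ l, μ l ^ α l else 0) =
        if κ α = a then F.coeff α * ∏ l, μ l ^ α l else 0 := by
      intro α hα
      by_cases h3 : Pr α a
      · rw [if_pos h3, if_pos (hκ1 α a h3)]
      · rw [if_neg h3, if_neg (fun h4 => h3 (hκ2 α a ha h4)), mul_zero]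
    rw [Finset.sum_congr rfl h2]
    refine Finset.sum_subset (Finset.filter_subset _ _) ?_
    intro α hα hαT
    rw [if_neg]
    intro h3
    exact hαT (hκ2 α a ha h3).2.1
  -- normalisation by the one-parameter group
  obtain ⟨θ, hθ⟩ : ∃ θ : Fin N → ℂ, ∀ l, θ l = logDeriv (g l) z0 := ⟨_, fun _ => rfl⟩
  have hθij : θ i - θ j ≠ 0 := by
    rw [hθ, hθ, hgi, hgj]
    have h1 : h i z0 ≠ 0 := by
      have := hz0 i
      rwa [hgi] at this
    have h2 : h j z0 ≠ 0 := by
      have := hz0 j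
      rwa [hgj] at this
    intro h3
    apply hW
    simp only [logDeriv_apply] at h3
    field_simp at h3
    linear_combination h3
  have hθκ : ∀ α a, a ≤ d → κ α = a → ∑ l, (α l : ℂ) * θ l = a * θ i + (d - a : ℕ) * θ j := by
    intro α a ha h1
    obtain ⟨-, hα, c, hc⟩ := hκ2 α a ha h1
    have hc0 : c ≠ 0 := by
      intro h2
      apply hTne α hα
      rw [hc z0, h2, zero_mul]
    have h2 : Hm g α = fun z => c * Hm g (al i j d a) z := by
      rw [← hTg α hα, ← hTg _ (halT a ha)]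
      funext z
      exact hc z
    have h3 := Hm_logDeriv g hgd hz0 α
    rw [h2, logDeriv_const_mul _ _ hc0, Hm_logDeriv g hgd hz0] at h3
    simp only [← hθ] at h3
    rw [← h3]
    have h4 : ∀ l, ((al i j d a l : ℕ) : ℂ) * θ l = (if l = i then (a : ℂ) * θ i else 0) +
        (if l = j then ((d - a : ℕ) : ℂ) * θ j else 0) := by
      intro l
      simp only [al, Finsupp.add_apply, Nat.cast_add, add_mul]
      congr 1
      · by_cases hl : l = i
        · subst hl; simp
        · simp [hl]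
      · by_cases hl : l = j
        · subst hl; simp
        · simp [hl]
    simp_rw [h4]
    rw [Finset.sum_add_distrib]
    simp
  have hμ0 : ∀ l, μ l ≠ 0 := by
    intro l
    rw [hμ]
    exact pow_ne_zero _ (hz0 l)
  refine ⟨κ, fun a ha => hκ1 _ _ ⟨ha, halT a ha, 1, fun z => (one_mul _).symm⟩, ?_, ?_⟩
  · intro α
    by_cases hex : ∃ a, Pr α a
    · have h2 : κ α = hex.choose := dif_pos hex
      rw [h2]
      have := hex.choose_spec.1
      omega
    · have h2 : κ α = d + 1 := dif_neg hex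
      omega
  intro x y hx0 hy0
  obtain ⟨τ, hτ⟩ : ∃ τ : ℂ, μ i * Complex.exp (τ * θ i) / x = μ j * Complex.exp (τ * θ j) / y := by
    refine ⟨(Complex.log (μ j / y) - Complex.log (μ i / x)) / (θ i - θ j), ?_⟩
    obtain ⟨u, hu⟩ : ∃ u : ℂ, u = Complex.log (μ i / x) := ⟨_, rfl⟩
    obtain ⟨v, hv⟩ : ∃ v : ℂ, v = Complex.log (μ j / y) := ⟨_, rfl⟩
    have hu' : μ i / x = Complex.exp u := by
      rw [hu, Complex.exp_log (div_ne_zero (hμ0 i) hx0)]
    have hv' : μ j / y = Complex.exp v := by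
      rw [hv, Complex.exp_log (div_ne_zero (hμ0 j) hy0)]
    rw [← hu, ← hv, mul_div_right_comm, mul_div_right_comm, hu', hv', ← Complex.exp_add,
      ← Complex.exp_add]
    congr 1
    field_simp
    ring
  obtain ⟨ν, hν⟩ : ∃ ν : ℂ, ν = μ j * Complex.exp (τ * θ j) / y := ⟨_, rfl⟩
  have hν0 : ν ≠ 0 := by
    rw [hν]
    exact div_ne_zero (mul_ne_zero (hμ0 j) (Complex.exp_ne_zero _)) hy0
  refine ⟨fun l => μ l * Complex.exp (τ * θ l) / ν, ?_, ?_, ?_, ?_⟩
  · intro l
    exact div_ne_zero (mul_ne_zero (hμ0 l) (Complex.exp_ne_zero _)) hν0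
  · show μ i * Complex.exp (τ * θ i) / ν = x
    rw [hν, ← hτ]
    have := hμ0 i
    field_simp
  · show μ j * Complex.exp (τ * θ j) / ν = y
    rw [hν]
    have := hμ0 j
    field_simp
  · intro a ha
    have h1 : ∀ α ∈ (Dl N d).filter (fun α => κ α = a),
        F.coeff α * ∏ l, (μ l * Complex.exp (τ * θ l) / ν) ^ α l =
        (Complex.exp (τ * (a * θ i + (d - a : ℕ) * θ j)) / ν ^ d) *
          (F.coeff α * ∏ l, μ l ^ α l) := by
      intro α hα
      obtain ⟨hα1, hα2⟩ := Finset.mem_filter.1 hα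
      have h2 : ∏ l, (μ l * Complex.exp (τ * θ l) / ν) ^ α l =
          (∏ l, μ l ^ α l) * Complex.exp (τ * ∑ l, (α l : ℂ) * θ l) / ν ^ (∑ l, α l) := by
        rw [← Finset.prod_pow_eq_pow_sum, Finset.mul_sum, Complex.exp_sum,
          ← Finset.prod_mul_distrib, ← Finset.prod_div_distrib]
        refine Finset.prod_congr rfl fun l _ => ?_
        rw [div_pow, mul_pow, ← Complex.exp_nat_mul]
        congr 3
        ring
      rw [h2, hθκ α a ha hα2, mem_Dl.1 hα1]
      ring
    rw [Finset.sum_congr rfl h1, ← Finset.mul_sum, hcls a ha, mul_zero]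

end Pool.Agent.Y460.KH
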