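import Pool.Agent.Y460.KH.Main

set_option autoImplicit false

/-!
# General hypersurfaces: the common core
-/

namespace Pool.Agent.Y460.KH

open MvPolynomial

/-- undoing the substitutions -/
theorem sub_sub {N : ℕ} (A A' : Matrix (Fin N) (Fin N) ℂ) (hAA : A * A' = 1)
    (lam : Fin N → ℂ) (hl0 : ∀ l, lam l ≠ 0) (F : MvPolynomial (Fin N) ℂ) :
    sub (fun l m => (lam l)⁻¹ * A' l m)
      (sub (fun l m => if l = m then lam l else 0) (sub (fun l m => A l m) F)) = F := by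
  classical
  refine MvPolynomial.funext fun w => ?_
  rw [eval_sub, eval_sub, eval_mulVec]
  have h6 : (fun l => ∑ m, (if l = m then lam l else 0) * ∑ m', (lam m)⁻¹ * A' m m' * w m') =
      A'.mulVec w := by
    funext l
    rw [Finset.sum_eq_single l]
    · rw [if_pos rfl, Finset.mul_sum, Matrix.mulVec_eq_sum, Finset.sum_apply]
      refine Finset.sum_congr rfl fun m' _ => ?_
      simp only [Pi.smul_apply, MulOpposite.smul_eq_mul_unop, MulOpposite.unop_op,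
        Matrix.transpose_apply]
      have := hl0 l
      field_simp
    · intro b _ hb
      rw [if_neg (Ne.symm hb), zero_mul]
    · simp
  rw [h6, Matrix.mulVec_mulVec, hAA, Matrix.one_mulVec]

/-- the common core of the two theorems -/
theorem core {N d k : ℕ} (hk : ((Dl N d).card - 1) ^ 2 ≤ k) (hk1 : 1 ≤ k) {ι : Type}
    (S : Fin N → Fin N → ι → Finset (Fin N × Fin N)) (K : Fin N → Fin N → ι → Fin N → Fin N → ℂ)
    {P : MvPolynomial (Dl N d) ℂ}
    (hP : ∀ (i j : Fin N) (u : ι) (κ : (Fin N →₀ ℕ) → ℕ),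
      (S i j u).card ≤ d → (∀ a ≤ d, κ (al i j d a) = a) → (∀ α, κ α ≤ d + 1) →
      ∀ G : MvPolynomial (Fin N) ℂ, G.IsHomogeneous d →
      (∀ a ≤ d, ∑ α ∈ (Dl N d).filter (fun α => κ α = a), G.coeff α = 0) →
      ∀ B : Fin N → Fin N → ℂ, (∀ l m, (l, m) ∉ S i j u → B l m = K i j u l m) →
        eval (fun γ : Dl N d => (sub B G).coeff γ) P = 0)
    {F : MvPolynomial (Fin N) ℂ} (hF : F.IsHomogeneous d)
    (hPF : eval (fun γ : Dl N d => F.coeff γ) P ≠ 0)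
    (A A' : Matrix (Fin N) (Fin N) ℂ) (hAA : A * A' = 1)
    (hadm : ∀ i j : Fin N, i ≠ j → ∃ u : ι, (S i j u).card ≤ d ∧ ∃ x y : ℂ, x ≠ 0 ∧ y ≠ 0 ∧
      ∀ lam : Fin N → ℂ, (∀ l, lam l ≠ 0) → lam i = x → lam j = y →
        ∀ l m, (l, m) ∉ S i j u → (lam l)⁻¹ * A' l m = K i j u l m)
    (h : Fin N → ℂ → ℂ) (hh : ∀ l, Differentiable ℂ (h l))
    (h0 : ∀ z, eval (A.mulVec fun l => h l z ^ k) F = 0) (i j : Fin N)
    (hi : ∃ z, h i z ≠ 0) (hj : ∃ z, h j z ≠ 0) : ∃ c : ℂ, ∀ z, h i z = c * h j z := by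
  classical
  by_contra hcon
  have hcon' : ∀ c : ℂ, ∃ z, h i z ≠ c * h j z := by
    intro c
    by_contra h1
    push Not at h1
    exact hcon ⟨c, h1⟩
  have hne : i ≠ j := by
    intro h1
    obtain ⟨z, hz⟩ := hcon' 1
    apply hz
    rw [h1, one_mul]
  obtain ⟨F1, hF1⟩ : ∃ F1, F1 = sub (fun l m => A l m) F := ⟨_, rfl⟩
  have hF1h : F1.IsHomogeneous d := by
    rw [hF1]
    exact sub_homogeneous _ hF
  have hF1z : ∀ z, eval (fun l => h l z ^ k) F1 = 0 := by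
    intro z
    rw [hF1, eval_mulVec]
    exact h0 z
  obtain ⟨κ, h1, h2, h3⟩ := analysis hk hk1 hF1h h hh hF1z hi hj hcon'
  obtain ⟨u, hu, x, y, hx, hy, hxy⟩ := hadm i j hne
  obtain ⟨lam, hl0, hli, hlj, hl⟩ := h3 x y hx hy
  obtain ⟨F2, hF2⟩ : ∃ F2, F2 = sub (fun l m => if l = m then lam l else 0) F1 := ⟨_, rfl⟩
  have hF2h : F2.IsHomogeneous d := by
    rw [hF2]
    exact sub_homogeneous _ hF1h
  have hF2c : ∀ a ≤ d, ∑ α ∈ (Dl N d).filter (fun α => κ α = a), F2.coeff α = 0 := by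
    intro a ha
    rw [← hl a ha]
    refine Finset.sum_congr rfl fun α _ => ?_
    rw [hF2]
    exact coeff_sub_diag hF1h lam α
  obtain ⟨B, hB⟩ : ∃ B : Fin N → Fin N → ℂ, B = fun l m => (lam l)⁻¹ * A' l m := ⟨_, rfl⟩
  have hBS : ∀ l m, (l, m) ∉ S i j u → B l m = K i j u l m := by
    intro l m hlm
    rw [hB]
    exact hxy lam hl0 hli hlj l m hlm
  have h4 := hP i j u κ hu h1 h2 F2 hF2h hF2c B hBS
  have h5 : sub B F2 = F := by
    rw [hB, hF2, hF1]
    exact sub_sub A A' hAA lam hl0 F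
  rw [h5] at h4
  exact hPF h4

end Pool.Agent.Y460.KH
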