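import Pool.Agent.Y460.KH.Core

set_option autoImplicit false

/-!
# General hypersurfaces: the refined dimension count
-/

namespace Pool.Agent.Y460.KH

open MvPolynomial

/-- **The dimension count**, for `m` classes of exponents and `p < m` parameters. -/
theorem type_poly2 {N d p m : ℕ} (hp : p < m) (κ : (Fin N →₀ ℕ) → ℕ)
    (hκ : ∀ s < m, ∃ α ∈ Dl N d, κ α = s)
    (β : Fin N → Fin N → MvPolynomial (Fin p) ℂ) :
    ∃ P : MvPolynomial (Dl N d) ℂ, P ≠ 0 ∧ ∀ G : MvPolynomial (Fin N) ℂ, G.IsHomogeneous d →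
      (∀ s < m, ∑ α ∈ (Dl N d).filter (fun α => κ α = s), G.coeff α = 0) →
      ∀ t : Fin p → ℂ,
        eval (fun γ : Dl N d => (sub (fun l m => eval t (β l m)) G).coeff γ) P = 0 := by
  classical
  choose! ex hex1 hex2 using hκ
  -- the linear conditions
  let φ : (Dl N d → ℂ) →ₗ[ℂ] (Fin m → ℂ) :=
    { toFun := fun c a => ∑ α : Dl N d, if κ α = a then c α else 0
      map_add' := by
        intro c c'
        funext a
        simp only [Pi.add_apply]
        rw [← Finset.sum_add_distrib]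
        refine Finset.sum_congr rfl fun α _ => ?_
        split_ifs <;> simp
      map_smul' := by
        intro s c
        funext a
        simp only [Pi.smul_apply, smul_eq_mul, RingHom.id_apply]
        rw [Finset.mul_sum]
        refine Finset.sum_congr rfl fun α _ => ?_
        split_ifs <;> simp }
  have hφ : Function.Surjective φ := by
    intro v
    refine ⟨fun α => if h : κ α < m ∧ (α : Fin N →₀ ℕ) = ex (κ α) then v ⟨κ α, h.1⟩
      else 0, ?_⟩
    funext a
    show (∑ α : Dl N d, if κ α = (a : ℕ) then _ else 0) = v a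
    rw [Finset.sum_eq_single ⟨ex a, hex1 a a.2⟩]
    · have h0 : κ (ex a) < m := by
        rw [hex2 a a.2]
        exact a.2
      simp only [hex2 a a.2, if_true]
      rw [dif_pos ⟨a.2, trivial⟩]
    · intro α _ hα
      split_ifs with h1 h2
      · exfalso
        apply hα
        apply Subtype.ext
        rw [h2.2, h1]
      · rfl
      · rfl
    · simp
  have hrk : Module.finrank ℂ (LinearMap.ker φ) + p < Fintype.card (Dl N d) := by
    have h1 := LinearMap.finrank_range_add_finrank_ker φ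
    rw [LinearMap.range_eq_top.2 hφ, finrank_top] at h1
    simp only [Module.finrank_fintype_fun_eq_card, Fintype.card_fin] at h1
    omega
  let Q : Dl N d → Dl N d → MvPolynomial (Fin p) ℂ := fun α γ =>
    coeff (γ : Fin N →₀ ℕ) (∏ l, (∑ m, C (β l m) * X m) ^ ((α : Fin N →₀ ℕ) l) :
      MvPolynomial (Fin N) (MvPolynomial (Fin p) ℂ))
  obtain ⟨P, hP, hP'⟩ := alg_core (LinearMap.ker φ) hrk Q
  refine ⟨P, hP, ?_⟩
  intro G hG hGa t
  have hc : (fun α : Dl N d => G.coeff α) ∈ LinearMap.ker φ := by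
    rw [LinearMap.mem_ker]
    funext a
    show (∑ α : Dl N d, if κ α = (a : ℕ) then G.coeff α else 0) = 0
    have h1 := hGa a a.2
    rw [Finset.sum_filter, ← Finset.sum_coe_sort] at h1
    exact h1
  have h1 := hP' _ hc t
  have h2 : (fun γ : Dl N d => (sub (fun l m => eval t (β l m)) G).coeff γ) =
      fun γ : Dl N d => ∑ α : Dl N d, G.coeff α * eval t (Q α γ) := by
    funext γ
    conv_lhs => rw [expand hG]
    unfold sub
    rw [map_sum, coeff_sum, ← Finset.sum_coe_sort]
    refine Finset.sum_congr rfl fun α _ => ?_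
    rw [bind₁_monomial, coeff_C_mul]
    congr 1
    show _ = eval t (coeff (γ : Fin N →₀ ℕ) _)
    rw [← coeff_map]
    congr 1
    rw [map_prod, ← Finset.prod_subset (Finset.subset_univ (α : Fin N →₀ ℕ).support)]
    · refine Finset.prod_congr rfl fun l _ => ?_
      simp
    · intro l _ hl
      have h3 : (α : Fin N →₀ ℕ) l = 0 := by simpa using hl
      rw [h3, pow_zero, map_one]
  rw [h2]
  exact h1

/-- a matrix of polynomials, its adjugate, and evaluation -/
theorem eval_adjugate {N p : ℕ} (β : Matrix (Fin N) (Fin N) (MvPolynomial (Fin p) ℂ))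
    (t : Fin p → ℂ) (M : Matrix (Fin N) (Fin N) ℂ) (h : ∀ l m, eval t (β l m) = M l m)
    (l m : Fin N) : eval t (β.adjugate l m) = M.adjugate l m := by
  have h1 : (eval t).mapMatrix β = M := by
    ext l m
    exact h l m
  have h2 := RingHom.map_adjugate (eval t) β
  rw [h1] at h2
  rw [← h2]
  rfl

/-- the dimension count for all types -/
theorem family_poly2 (N d : ℕ) :
    ∃ P : MvPolynomial (Dl N d) ℂ, P ≠ 0 ∧
      ∀ (S : Finset (Fin N × Fin N)) (m : ℕ) (κ : (Fin N →₀ ℕ) → ℕ),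
      S.card < m → (∀ s < m, ∃ α ∈ Dl N d, κ α = s) →
      ∀ G : MvPolynomial (Fin N) ℂ, G.IsHomogeneous d →
      (∀ s < m, ∑ α ∈ (Dl N d).filter (fun α => κ α = s), G.coeff α = 0) →
      ∀ M : Matrix (Fin N) (Fin N) ℂ, (∀ l m, (l, m) ∉ S → M l m = 0 ∨ M l m = 1) →
        eval (fun γ : Dl N d => (sub (fun l m => M.adjugate l m) G).coeff γ) P = 0 := by
  classical
  -- one type
  have one : ∀ τ : Finset (Fin N × Fin N) × (Fin N → Fin N → Bool) ×
      (Dl N d → Fin ((Dl N d).card + 1)) × Fin ((Dl N d).card + 1),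
      ∃ P : MvPolynomial (Dl N d) ℂ, P ≠ 0 ∧ ∀ κ : (Fin N →₀ ℕ) → ℕ,
        (∀ α : Dl N d, min (κ α) τ.2.2.2 = τ.2.2.1 α) →
        τ.1.card < τ.2.2.2 → (∀ s < (τ.2.2.2 : ℕ), ∃ α ∈ Dl N d, κ α = s) →
        ∀ G : MvPolynomial (Fin N) ℂ, G.IsHomogeneous d →
        (∀ s < (τ.2.2.2 : ℕ), ∑ α ∈ (Dl N d).filter (fun α => κ α = s), G.coeff α = 0) →
        ∀ M : Matrix (Fin N) (Fin N) ℂ,
          (∀ l m, (l, m) ∉ τ.1 → M l m = if τ.2.1 l m then 1 else 0) →
          eval (fun γ : Dl N d => (sub (fun l m => M.adjugate l m) G).coeff γ) P = 0 := by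
    rintro ⟨S, K, κ', m⟩
    by_cases hex : S.card < m ∧ ∃ κ : (Fin N →₀ ℕ) → ℕ, (∀ α : Dl N d, min (κ α) m = κ' α) ∧
        ∀ s < (m : ℕ), ∃ α ∈ Dl N d, κ α = s
    · obtain ⟨hc, κ, h1, h2⟩ := hex
      obtain ⟨β, hβ⟩ := param_matrix S rfl (fun l m => if K l m then (1 : ℂ) else 0)
      obtain ⟨P, hP, hP'⟩ := type_poly2 hc κ h2 (fun l m => (Matrix.of β).adjugate l m)
      refine ⟨P, hP, ?_⟩
      intro κ2 h3 _ _ G hG hGa M hM
      obtain ⟨t, ht⟩ := hβ M hM
      have h4 := hP' G hG (by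
        intro a ha
        rw [← hGa a ha]
        refine Finset.sum_congr (Finset.filter_congr fun α hα => ?_) fun _ _ => rfl
        have e1 : min (κ α) m = min (κ2 α) m := by
          have h5 := h1 ⟨α, hα⟩
          have h6 := h3 ⟨α, hα⟩
          simp only at h5 h6
          rw [h5, h6]
        have ha' : a < (m : ℕ) := ha
        omega) t
      have h5 : (fun l m => eval t ((Matrix.of β).adjugate l m)) = fun l m => M.adjugate l m := by
        funext l m
        exact eval_adjugate (Matrix.of β) t M ht l m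
      rw [h5] at h4
      exact h4
    · refine ⟨1, one_ne_zero, ?_⟩
      intro κ h1 h2 h3
      exact (hex ⟨h2, κ, h1, h3⟩).elim
  choose P hP hP' using one
  refine ⟨∏ τ, P τ, Finset.prod_ne_zero_iff.2 fun τ _ => hP τ, ?_⟩
  intro S m κ hc h1 G hG hGa M hM
  have hm : m ≤ (Dl N d).card := by
    choose! ex hex1 hex2 using h1
    have h3 : (Finset.range m).card ≤ (Dl N d).card := by
      refine Finset.card_le_card_of_injOn ex ?_ ?_
      · intro s hs
        exact hex1 s (Finset.mem_range.1 hs)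
      · intro s hs s' hs' h4
        rw [← hex2 s (Finset.mem_range.1 hs), h4, hex2 s' (Finset.mem_range.1 hs')]
    rwa [Finset.card_range] at h3
  rw [map_prod]
  refine Finset.prod_eq_zero (Finset.mem_univ
    (⟨S, fun l m => decide (M l m = 1), fun α => ⟨min (κ α) m, by omega⟩, ⟨m, by omega⟩⟩ :
      Finset (Fin N × Fin N) × (Fin N → Fin N → Bool) ×
      (Dl N d → Fin ((Dl N d).card + 1)) × Fin ((Dl N d).card + 1))) ?_
  refine hP' _ κ (fun α => rfl) hc h1 G hG hGa M ?_
  intro l m' hlm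
  rcases hM l m' hlm with h2 | h2
  · simp [h2]
  · simp [h2]

/-- substitutions compose -/
theorem sub_comp {N : ℕ} (A B : Matrix (Fin N) (Fin N) ℂ) (F : MvPolynomial (Fin N) ℂ) :
    sub (fun l m => B l m) (sub (fun l m => A l m) F) = sub (fun l m => (A * B) l m) F := by
  refine MvPolynomial.funext fun w => ?_
  rw [eval_mulVec, eval_mulVec, eval_mulVec, Matrix.mulVec_mulVec]

/-- **The contradiction** for a general form. -/
theorem core2 (N d : ℕ) :
    ∃ P : MvPolynomial (Dl N d) ℂ, P ≠ 0 ∧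
      ∀ F : MvPolynomial (Fin N) ℂ, F.IsHomogeneous d →
      eval (fun γ : Dl N d => F.coeff γ) P ≠ 0 →
      ∀ (S : Finset (Fin N × Fin N)) (m : ℕ) (κ : (Fin N →₀ ℕ) → ℕ),
      S.card < m → (∀ s < m, ∃ α ∈ Dl N d, κ α = s) →
      ∀ M : Matrix (Fin N) (Fin N) ℂ, M.det ≠ 0 →
      (∀ l m, (l, m) ∉ S → M l m = 0 ∨ M l m = 1) →
      (∀ s < m, ∑ α ∈ (Dl N d).filter (fun α => κ α = s),
        (sub (fun l m => M l m) F).coeff α = 0) → False := by
  obtain ⟨P, hP, hP'⟩ := family_poly2 N d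
  refine ⟨P, hP, ?_⟩
  intro F hF hPF S m κ hS hκ M hM hMS hsum
  obtain ⟨G, hG⟩ : ∃ G, G = C ((M.det ^ d)⁻¹) * sub (fun l m => M l m) F := ⟨_, rfl⟩
  have hGh : G.IsHomogeneous d := by
    rw [hG]
    have h1 := (isHomogeneous_C (Fin N) ((M.det ^ d)⁻¹)).mul
      (sub_homogeneous (fun l m => M l m) hF)
    rwa [zero_add] at h1
  have hGs : ∀ s < m, ∑ α ∈ (Dl N d).filter (fun α => κ α = s), G.coeff α = 0 := by
    intro s hs
    rw [hG]
    simp only [coeff_C_mul]
    rw [← Finset.mul_sum, hsum s hs, mul_zero]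
  have h1 := hP' S m κ hS hκ G hGh hGs M hMS
  have h2 : sub (fun l m => M.adjugate l m) G = F := by
    refine MvPolynomial.funext fun w => ?_
    rw [hG, eval_mulVec, map_mul, eval_C, eval_mulVec, Matrix.mulVec_mulVec, Matrix.mul_adjugate]
    have h3 : (M.det • (1 : Matrix (Fin N) (Fin N) ℂ)).mulVec w = fun l => M.det * w l := by
      rw [Matrix.smul_mulVec, Matrix.one_mulVec]
      rfl
    rw [h3]
    have h4 : eval (fun l => M.det * w l) F = M.det ^ d * eval w F := by
      have h5 : (fun l => M.det * w l) = M.det • w := rfl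
      rw [expand hF, map_sum, map_sum, Finset.mul_sum]
      refine Finset.sum_congr rfl fun α hα => ?_
      rw [eval_monomial, eval_monomial, Finsupp.prod_fintype _ _ (fun l => pow_zero _),
        Finsupp.prod_fintype _ _ (fun l => pow_zero _)]
      simp_rw [mul_pow]
      rw [Finset.prod_mul_distrib, Finset.prod_pow_eq_pow_sum, mem_Dl.1 hα]
      ring
    rw [h4, ← mul_assoc, inv_mul_cancel₀ (pow_ne_zero _ hM), one_mul]
  rw [h2] at h1
  exact hPF h1

end Pool.Agent.Y460.KH
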