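import Pool.Agent.Y460.KH.Dim

set_option autoImplicit false

/-!
# Exponential curves in general hypersurfaces
-/

namespace Pool.Agent.Y460.KH

open MvPolynomial Pointwise

/-- the character `τ ↦ exp (c τ)` of the additive group of `ℂ` -/
noncomputable def echar (c : ℂ) : Multiplicative ℂ →* ℂ where
  toFun τ := Complex.exp (τ.toAdd * c)
  map_one' := by simp
  map_mul' := by
    intro x y
    rw [toAdd_mul, add_mul, Complex.exp_add]

theorem echar_injective : Function.Injective echar := by
  intro c c' h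
  have h1 : ∀ τ : ℂ, Complex.exp (τ * c) = Complex.exp (τ * c') := fun τ =>
    DFunLike.congr_fun h (Multiplicative.ofAdd τ)
  have h2 : HasDerivAt (fun τ : ℂ => Complex.exp (τ * c)) (Complex.exp (0 * c) * (1 * c)) 0 :=
    ((hasDerivAt_id (0 : ℂ)).mul_const c).cexp
  have h3 : HasDerivAt (fun τ : ℂ => Complex.exp (τ * c')) (Complex.exp (0 * c') * (1 * c')) 0 :=
    ((hasDerivAt_id (0 : ℂ)).mul_const c').cexp
  have h4 : (fun τ : ℂ => Complex.exp (τ * c)) = fun τ : ℂ => Complex.exp (τ * c') := funext h1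
  rw [h4] at h2
  have h5 := h2.unique h3
  simpa using h5

/-- exponentials with distinct frequencies are independent -/
theorem exp_sums {β : Type} (S : Finset β) (a φ : β → ℂ)
    (h : ∀ τ : ℂ, ∑ x ∈ S, a x * Complex.exp (τ * φ x) = 0) (c : ℂ) :
    ∑ x ∈ S with φ x = c, a x = 0 := by
  classical
  have hli : LinearIndependent ℂ (fun c : ℂ => (echar c : Multiplicative ℂ → ℂ)) :=
    (linearIndependent_monoidHom (Multiplicative ℂ) ℂ).comp echar echar_injective
  rw [linearIndependent_iff'] at hli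
  by_cases hc : c ∈ S.image φ
  · refine hli (S.image φ) (fun c => ∑ x ∈ S with φ x = c, a x) ?_ c hc
    funext τ
    rw [Finset.sum_apply]
    simp only [Pi.smul_apply, smul_eq_mul, Pi.zero_apply]
    rw [← h τ.toAdd, ← Finset.sum_fiberwise_of_maps_to (g := φ) (t := S.image φ)
      (fun x hx => Finset.mem_image_of_mem _ hx)]
    refine Finset.sum_congr rfl fun c' _ => ?_
    rw [Finset.sum_mul]
    refine Finset.sum_congr rfl fun x hx => ?_
    rw [(Finset.mem_filter.1 hx).2]
    rfl
  · refine Finset.sum_eq_zero fun x hx => ?_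
    obtain ⟨h1, h2⟩ := Finset.mem_filter.1 hx
    exact (hc (h2 ▸ Finset.mem_image_of_mem _ h1)).elim

/-- the value of an exponent -/
def vl {N : ℕ} (θ : Fin N → ℂ) (α : Fin N →₀ ℕ) : ℂ := ∑ l, (α l : ℂ) * θ l

/-- exponents of degree `d` supported on `R` -/
noncomputable def DR (N d : ℕ) (R : Finset (Fin N)) : Finset (Fin N →₀ ℕ) :=
  open Classical in (Dl N d).filter fun α => ∀ l, l ∉ R → α l = 0

theorem mem_DR {N d : ℕ} {R : Finset (Fin N)} {α : Fin N →₀ ℕ} :
    α ∈ DR N d R ↔ α ∈ Dl N d ∧ ∀ l, l ∉ R → α l = 0 := by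
  classical
  unfold DR
  rw [Finset.mem_filter]

/-- the number of values -/
theorem card_values {N : ℕ} (R : Finset (Fin N)) (hR : R.Nonempty) (θ : Fin N → ℂ)
    (hθ : ∀ l ∈ R, ∀ l' ∈ R, θ l = θ l' → l = l') (d : ℕ) :
    d * (R.card - 1) + 1 ≤ ((DR N d R).image (vl θ)).card := by
  classical
  induction d with
  | zero =>
    rw [zero_mul, zero_add, Nat.one_le_iff_ne_zero, ← Nat.pos_iff_ne_zero, Finset.card_pos]
    refine Finset.Nonempty.image ⟨0, ?_⟩ _
    rw [mem_DR, mem_Dl]
    simp
  | succ d ih =>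
    have h1 := cauchy_davenport_of_isAddTorsionFree (s := (DR N d R).image (vl θ))
      (t := R.image θ) (by
        rw [← Finset.card_pos]
        omega) (hR.image _)
    rw [Finset.card_image_of_injOn (s := R) (f := θ) (fun l hl l' hl' h => hθ l hl l' hl' h)] at h1
    have h2 : (DR N d R).image (vl θ) + R.image θ ⊆ (DR N (d + 1) R).image (vl θ) := by
      intro c hc
      obtain ⟨c1, hc1, c2, hc2, rfl⟩ := Finset.mem_add.1 hc
      obtain ⟨α, hα, rfl⟩ := Finset.mem_image.1 hc1
      obtain ⟨l0, hl0, rfl⟩ := Finset.mem_image.1 hc2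
      rw [mem_DR, mem_Dl] at hα
      refine Finset.mem_image.2 ⟨α + Finsupp.single l0 1, ?_, ?_⟩
      · rw [mem_DR, mem_Dl]
        constructor
        · simp only [Finsupp.add_apply, Finset.sum_add_distrib, hα.1]
          congr 1
          rw [Finset.sum_eq_single l0]
          · simp
          · intro b _ hb
            simp [hb.symm]
          · simp
        · intro l hl
          have h3 : l ≠ l0 := fun h => hl (h ▸ hl0)
          rw [Finsupp.add_apply, hα.2 l hl, Finsupp.single_apply, if_neg h3.symm, add_zero]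
      · unfold vl
        simp only [Finsupp.add_apply, Nat.cast_add, add_mul, Finset.sum_add_distrib]
        congr 1
        rw [Finset.sum_eq_single l0]
        · simp
        · intro b _ hb
          simp [hb.symm]
        · simp
    have h3 := Finset.card_le_card h2
    have h4 : 0 < R.card := Finset.card_pos.2 hR
    have h5 : (d + 1) * (R.card - 1) + 1 = (d * (R.card - 1) + 1) + R.card - 1 := by
      have : (d + 1) * (R.card - 1) = d * (R.card - 1) + (R.card - 1) := by ring
      omega
    omega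

/-- **The contradiction**, for exponential curves. -/
theorem core3 (N d : ℕ) :
    ∃ P : MvPolynomial (Dl N d) ℂ, P ≠ 0 ∧
      ∀ F : MvPolynomial (Fin N) ℂ, F.IsHomogeneous d →
      eval (fun γ : Dl N d => F.coeff γ) P ≠ 0 →
      ∀ (R : Finset (Fin N)) (_ : R.Nonempty) (θ : Fin N → ℂ)
        (_ : ∀ l ∈ R, ∀ l' ∈ R, θ l = θ l' → l = l') (S : Finset (Fin N × Fin N)),
      S.card < d * (R.card - 1) + 1 →
      ∀ M : Matrix (Fin N) (Fin N) ℂ, M.det ≠ 0 →
      (∀ l m, (l, m) ∉ S → M l m = 0 ∨ M l m = 1) →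
      (∀ τ : ℂ, eval (fun l => ∑ m ∈ R, M l m * Complex.exp (τ * θ m)) F = 0) → False := by
  classical
  obtain ⟨P, hP, hP'⟩ := core2 N d
  refine ⟨P, hP, ?_⟩
  intro F hF hPF R hR θ hθ S hS M hM hMS hcurve
  obtain ⟨W, hW⟩ : ∃ W, W = (DR N d R).image (vl θ) := ⟨_, rfl⟩
  have hWc : d * (R.card - 1) + 1 ≤ W.card := by
    rw [hW]
    exact card_values R hR θ hθ d
  let e := W.equivFin
  let κ : (Fin N →₀ ℕ) → ℕ := fun α => if h : α ∈ DR N d R ∧ vl θ α ∈ W then e ⟨vl θ α, h.2⟩
    else W.card
  have hκ : ∀ α (s : Fin W.card), κ α = s ↔ α ∈ DR N d R ∧ vl θ α = e.symm s := by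
    intro α s
    by_cases h : α ∈ DR N d R ∧ vl θ α ∈ W
    · have h1 : κ α = e ⟨vl θ α, h.2⟩ := dif_pos h
      rw [h1]
      constructor
      · intro h2
        refine ⟨h.1, ?_⟩
        have h3 : e ⟨vl θ α, h.2⟩ = s := Fin.ext h2
        rw [← h3, Equiv.symm_apply_apply]
      · rintro ⟨-, h2⟩
        have h3 : (⟨vl θ α, h.2⟩ : W) = e.symm s := Subtype.ext h2
        rw [h3, Equiv.apply_symm_apply]
    · have h1 : κ α = W.card := dif_neg h
      rw [h1]
      constructor
      · intro h2
        have := s.2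
        omega
      · rintro ⟨h2, h3⟩
        exact (h ⟨h2, h3 ▸ (e.symm s).2⟩).elim
  refine hP' F hF hPF S W.card κ (by omega) ?_ M hM hMS ?_
  · intro s hs
    obtain ⟨c, hc⟩ : ∃ c, c = e.symm ⟨s, hs⟩ := ⟨_, rfl⟩
    obtain ⟨α, hα, hα'⟩ := Finset.mem_image.1 ((Finset.ext_iff.1 hW _).1 c.2)
    exact ⟨α, (mem_DR.1 hα).1, (hκ α ⟨s, hs⟩).2 ⟨hα, by rw [hα', hc]⟩⟩
  · intro s hs
    obtain ⟨G, hG⟩ : ∃ G, G = sub (fun l m => M l m) F := ⟨_, rfl⟩
    have hGh : G.IsHomogeneous d := by
      rw [hG]
      exact sub_homogeneous _ hF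
    rw [← hG]
    have h1 : ∀ τ : ℂ, ∑ α ∈ DR N d R, G.coeff α * Complex.exp (τ * vl θ α) = 0 := by
      intro τ
      have h2 : eval (fun m => if m ∈ R then Complex.exp (τ * θ m) else 0) G = 0 := by
        have e1 : M.mulVec (fun m => if m ∈ R then Complex.exp (τ * θ m) else 0) =
            fun l => ∑ m ∈ R, M l m * Complex.exp (τ * θ m) := by
          funext l
          show ∑ m, M l m * (if m ∈ R then Complex.exp (τ * θ m) else 0) = _
          rw [← Finset.sum_subset (Finset.subset_univ R)]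
          · refine Finset.sum_congr rfl fun m hm => ?_
            rw [if_pos hm]
          · intro m _ hm
            rw [if_neg hm, mul_zero]
        rw [hG, eval_mulVec, e1]
        exact hcurve τ
      rw [expand hGh, map_sum] at h2
      rw [← h2]
      have h3 : DR N d R ⊆ Dl N d := fun α hα => (mem_DR.1 hα).1
      rw [← Finset.sum_subset h3]
      · refine Finset.sum_congr rfl fun α hα => ?_
        rw [eval_monomial, Finsupp.prod_fintype _ _ (fun l => pow_zero _)]
        have h4 : (coeff α (∑ α ∈ Dl N d, monomial α (G.coeff α))) = G.coeff α := by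
          rw [← expand hGh]
        have h5 : ∏ l, (if l ∈ R then Complex.exp (τ * θ l) else 0) ^ α l =
            Complex.exp (τ * vl θ α) := by
          unfold vl
          rw [Finset.mul_sum, Complex.exp_sum]
          refine Finset.prod_congr rfl fun l _ => ?_
          by_cases hl : l ∈ R
          · rw [if_pos hl, ← Complex.exp_nat_mul]
            congr 1
            ring
          · rw [if_neg hl, (mem_DR.1 hα).2 l hl]
            simp
        rw [h5]
      · intro α hα hαR
        obtain ⟨l, hl, hl'⟩ : ∃ l, l ∉ R ∧ α l ≠ 0 := by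
          by_contra hcon
          push Not at hcon
          exact hαR (mem_DR.2 ⟨hα, hcon⟩)
        rw [eval_monomial, Finsupp.prod_fintype _ _ (fun l => pow_zero _),
          Finset.prod_eq_zero (Finset.mem_univ l), mul_zero]
        rw [if_neg hl, zero_pow hl']
    have h2 := exp_sums (DR N d R) (fun α => G.coeff α) (vl θ) h1 (e.symm ⟨s, hs⟩)
    rw [← h2]
    refine Finset.sum_congr ?_ fun _ _ => rfl
    ext α
    rw [Finset.mem_filter, Finset.mem_filter, hκ α ⟨s, hs⟩]
    constructor
    · rintro ⟨-, h3⟩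
      exact h3
    · intro h3
      exact ⟨(mem_DR.1 h3.1).1, h3⟩

end Pool.Agent.Y460.KH
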