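import Pool.Agent.Y460.KH.Core

set_option autoImplicit false

/-!
# General hypersurfaces: the theorems
-/

namespace Pool.Agent.Y460.KH

open MvPolynomial

/-- `S` holds for a general form of degree `d` in `n + 2` variables -/
def General (n d : ℕ) (S : MvPolynomial (Fin (n + 2)) ℂ → Prop) : Prop :=
  ∃ P : MvPolynomial (Fin (n + 2) →₀ ℕ) ℂ,
    (∃ F₀ : MvPolynomial (Fin (n + 2)) ℂ, F₀.IsHomogeneous d ∧
      eval (fun m => F₀.coeff m) P ≠ 0) ∧
    ∀ F : MvPolynomial (Fin (n + 2)) ℂ, F.IsHomogeneous d →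
      eval (fun m => F.coeff m) P ≠ 0 → S F

/-- lift of an entire curve in projective space -/
def Curve {N : ℕ} (f : ℂ → Fin N → ℂ) : Prop := Differentiable ℂ f ∧ ∀ z, f z ≠ 0

/-- the curve is constant in projective space -/
def Const {N : ℕ} (f : ℂ → Fin N → ℂ) : Prop := ∀ z, ∃ c : ℂ, f z = c • f 0

/-- `g` has no zeros, or is the `k`-th power of an entire function -/
def Ram (k : ℕ) (g : ℂ → ℂ) : Prop :=
  (∀ z, g z ≠ 0) ∨ ∃ u : ℂ → ℂ, Differentiable ℂ u ∧ ∀ z, g z = u z ^ k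

theorem two_le_card {N d : ℕ} (hN : 2 ≤ N) (hd : 1 ≤ d) : 2 ≤ (Dl N d).card := by
  have h : 1 < (Dl N d).card := by
    rw [Finset.one_lt_card]
    refine ⟨al ⟨0, by omega⟩ ⟨1, by omega⟩ d 0, al_mem _ _ (Nat.zero_le _),
      al ⟨0, by omega⟩ ⟨1, by omega⟩ d d, al_mem _ _ le_rfl, ?_⟩
    intro h1
    have h2 := DFunLike.congr_fun h1 (⟨0, by omega⟩ : Fin N)
    simp [al] at h2
    omega
  omega

/-- the case of power curves, from the core -/
theorem curves {N k : ℕ} {F : MvPolynomial (Fin N) ℂ} (hk1 : 1 ≤ k)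
    (A A' : Matrix (Fin N) (Fin N) ℂ) (hAA : A * A' = 1)
    (hcore : ∀ h : Fin N → ℂ → ℂ, (∀ l, Differentiable ℂ (h l)) →
      (∀ z, eval (A.mulVec fun l => h l z ^ k) F = 0) → ∀ i j : Fin N,
      (∃ z, h i z ≠ 0) → (∃ z, h j z ≠ 0) → ∃ c : ℂ, ∀ z, h i z = c * h j z) :
    (∀ f : ℂ → Fin N → ℂ, Curve f → (∀ z, eval (f z) F = 0) →
      (∀ l, Ram k fun z => A'.mulVec (f z) l) → Const f) ∧
    (∀ h : ℂ → Fin N → ℂ, Curve h → (∀ z, eval (A.mulVec fun l => h z l ^ k) F = 0) →
      Const h) := by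
  constructor
  · rintro f ⟨hf, hf0⟩ hfF hR
    have hdf : ∀ l, Differentiable ℂ fun z => f z l := fun l => differentiable_pi.1 hf l
    have hdA : ∀ l, Differentiable ℂ fun z => A'.mulVec (f z) l := by
      intro l
      have : (fun z => A'.mulVec (f z) l) = fun z => ∑ m, A' l m * f z m := rfl
      rw [this]
      exact Differentiable.fun_sum fun m _ => (hdf m).const_mul _
    have hroot : ∀ l, ∃ u : ℂ → ℂ, Differentiable ℂ u ∧ ∀ z, A'.mulVec (f z) l = u z ^ k := by
      intro l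
      rcases hR l with h1 | h1
      · exact entire_root (hdA l) h1 hk1
      · exact h1
    choose u hu hu' using hroot
    have hAf : ∀ z, (fun l => u l z ^ k) = A'.mulVec (f z) := fun z => funext fun l => (hu' l z).symm
    have h1 := hcore u hu (by
      intro z
      rw [hAf, Matrix.mulVec_mulVec, hAA, Matrix.one_mulVec]
      exact hfF z)
    have h2 := const_of_pairs (fun z => A'.mulVec (f z)) (by
      intro z h3
      apply hf0 z
      have h4 : A.mulVec (A'.mulVec (f z)) = A.mulVec 0 := by rw [h3]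
      rw [Matrix.mulVec_mulVec, hAA, Matrix.one_mulVec, Matrix.mulVec_zero] at h4
      exact h4) (by
      rintro i j ⟨z1, hz1⟩ ⟨z2, hz2⟩
      obtain ⟨c, hc⟩ := h1 i j ⟨z1, by
        intro h5
        apply hz1
        show A'.mulVec (f z1) i = 0
        rw [hu', h5, zero_pow (by omega)]⟩ ⟨z2, by
        intro h5
        apply hz2
        show A'.mulVec (f z2) j = 0
        rw [hu', h5, zero_pow (by omega)]⟩
      refine ⟨c ^ k, fun z => ?_⟩
      show A'.mulVec (f z) i = c ^ k * A'.mulVec (f z) j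
      rw [hu', hu', hc z, mul_pow])
    intro z
    obtain ⟨c, hc⟩ := h2 z
    refine ⟨c, ?_⟩
    have h3 : A.mulVec (A'.mulVec (f z)) = A.mulVec (c • A'.mulVec (f 0)) := congrArg A.mulVec hc
    rw [Matrix.mulVec_smul, Matrix.mulVec_mulVec, Matrix.mulVec_mulVec, hAA, Matrix.one_mulVec,
      Matrix.one_mulVec] at h3
    exact h3
  · rintro h ⟨hh, hh0⟩ hhF
    exact const_of_pairs h hh0 (hcore (fun l z => h z l) (fun l => differentiable_pi.1 hh l) hhF)

/-- arbitrary hyperplanes -/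
theorem all_simplices (n d : ℕ) (hd : n ^ 2 + 4 * n + 2 ≤ d) :
    General n d fun F => ∀ k : ℕ, ((n + 1 + d).choose d - 1) ^ 2 ≤ k →
      ∀ A : Matrix (Fin (n + 2)) (Fin (n + 2)) ℂ, IsUnit A →
      (∀ f : ℂ → Fin (n + 2) → ℂ, Curve f → (∀ z, eval (f z) F = 0) →
        (∀ l, Ram k fun z => A.mulVec (f z) l) → Const f) ∧
      (∀ h : ℂ → Fin (n + 2) → ℂ, Curve h →
        (∀ z, eval (A.mulVec fun l => h z l ^ k) F = 0) → Const h) := by
  classical
  obtain ⟨P, hP, hP'⟩ := family_poly (N := n + 2) (d := d) (ι := Fin (n + 2) × Fin (n + 2))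
    (fun i j u => Finset.univ \ {(i, u.1), (j, u.2)}) (fun _ _ _ _ _ => 1)
  refine ⟨rename Subtype.val P, exists_form hP, ?_⟩
  intro F hF hPF k hk
  have hcardk : ((Dl (n + 2) d).card - 1) ^ 2 ≤ k := by
    rw [card_Dl]
    have : n + 2 + d - 1 = n + 1 + d := by omega
    rw [this]
    exact hk
  have h2 := two_le_card (N := n + 2) (d := d) (by omega) (by omega)
  have hk1 : 1 ≤ k := by
    have h3 : 1 ≤ (Dl (n + 2) d).card - 1 := by omega
    have h4 : 1 ^ 2 ≤ ((Dl (n + 2) d).card - 1) ^ 2 := Nat.pow_le_pow_left h3 2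
    omega
  have hPF' : eval (fun γ : Dl (n + 2) d => F.coeff γ) P ≠ 0 := by
    rw [eval_rename] at hPF
    exact hPF
  have key : ∀ A A' : Matrix (Fin (n + 2)) (Fin (n + 2)) ℂ, A * A' = 1 → A' * A = 1 →
      ∀ h : Fin (n + 2) → ℂ → ℂ, (∀ l, Differentiable ℂ (h l)) →
      (∀ z, eval (A.mulVec fun l => h l z ^ k) F = 0) → ∀ i j : Fin (n + 2),
      (∃ z, h i z ≠ 0) → (∃ z, h j z ≠ 0) → ∃ c : ℂ, ∀ z, h i z = c * h j z := by
    intro A A' hAA hAA' h hh h0
    refine core hcardk hk1 _ _ hP' hF hPF' A A' hAA ?_ h hh h0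
    intro i j hij
    have hrow : ∀ i, ∃ m, A' i m ≠ 0 := by
      intro i
      by_contra hcon
      push Not at hcon
      have h3 : (A' * A) i i = 0 := by
        rw [Matrix.mul_apply]
        exact Finset.sum_eq_zero fun m _ => by rw [hcon m, zero_mul]
      rw [hAA', Matrix.one_apply_eq] at h3
      exact one_ne_zero h3
    obtain ⟨m, hm⟩ := hrow i
    obtain ⟨m', hm'⟩ := hrow j
    refine ⟨(m, m'), ?_, A' i m, A' j m', hm, hm', ?_⟩
    · rw [Finset.card_sdiff_of_subset (Finset.subset_univ _), Finset.card_pair (by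
        intro h3
        exact hij (congrArg Prod.fst h3))]
      simp only [Finset.card_univ, Fintype.card_prod, Fintype.card_fin]
      have : (n + 2) * (n + 2) = n ^ 2 + 4 * n + 2 + 2 := by ring
      omega
    · intro lam hl0 hli hlj l m'' hlm
      simp only [Finset.mem_sdiff, Finset.mem_univ, true_and, not_not, Finset.mem_insert,
        Finset.mem_singleton, Prod.mk.injEq] at hlm
      rcases hlm with ⟨rfl, rfl⟩ | ⟨rfl, rfl⟩
      · rw [hli]
        exact inv_mul_cancel₀ hm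
      · rw [hlj]
        exact inv_mul_cancel₀ hm'
  intro A hA
  have hdet : IsUnit A.det := (Matrix.isUnit_iff_isUnit_det A).1 hA
  have e1 : A⁻¹ * A = 1 := Matrix.nonsing_inv_mul A hdet
  have e2 : A * A⁻¹ = 1 := Matrix.mul_nonsing_inv A hdet
  exact ⟨(curves hk1 A⁻¹ A e1 (key A⁻¹ A e1 e2)).1, (curves hk1 A A⁻¹ e2 (key A A⁻¹ e2 e1)).2⟩

/-- the coordinate hyperplanes -/
theorem one_simplex (n d : ℕ) (hn : 1 ≤ n) (hd : n ≤ d) :
    General n d fun F => ∀ k : ℕ, ((n + 1 + d).choose d - 1) ^ 2 ≤ k →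
      (∀ f : ℂ → Fin (n + 2) → ℂ, Curve f → (∀ z, eval (f z) F = 0) →
        (∀ l, Ram k fun z => f z l) → Const f) ∧
      (∀ h : ℂ → Fin (n + 2) → ℂ, Curve h →
        (∀ z, eval (fun l => h z l ^ k) F = 0) → Const h) := by
  classical
  obtain ⟨P, hP, hP'⟩ := family_poly (N := n + 2) (d := d) (ι := Unit)
    (fun i j _ => ((Finset.univ.erase i).erase j).image fun l => (l, l))
    (fun _ _ _ l m => if l = m then 1 else 0)
  refine ⟨rename Subtype.val P, exists_form hP, ?_⟩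
  intro F hF hPF k hk
  have hcardk : ((Dl (n + 2) d).card - 1) ^ 2 ≤ k := by
    rw [card_Dl]
    have : n + 2 + d - 1 = n + 1 + d := by omega
    rw [this]
    exact hk
  have h2 := two_le_card (N := n + 2) (d := d) (by omega) (by omega)
  have hk1 : 1 ≤ k := by
    have h3 : 1 ≤ (Dl (n + 2) d).card - 1 := by omega
    have h4 : 1 ^ 2 ≤ ((Dl (n + 2) d).card - 1) ^ 2 := Nat.pow_le_pow_left h3 2
    omega
  have hPF' : eval (fun γ : Dl (n + 2) d => F.coeff γ) P ≠ 0 := by
    rw [eval_rename] at hPF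
    exact hPF
  have key : ∀ h : Fin (n + 2) → ℂ → ℂ, (∀ l, Differentiable ℂ (h l)) →
      (∀ z, eval ((1 : Matrix (Fin (n + 2)) (Fin (n + 2)) ℂ).mulVec fun l => h l z ^ k) F = 0) →
      ∀ i j : Fin (n + 2),
      (∃ z, h i z ≠ 0) → (∃ z, h j z ≠ 0) → ∃ c : ℂ, ∀ z, h i z = c * h j z := by
    intro h hh h0
    refine core hcardk hk1 _ _ hP' hF hPF' 1 1 (mul_one 1) ?_ h hh h0
    intro i j hij
    refine ⟨(), ?_, 1, 1, one_ne_zero, one_ne_zero, ?_⟩
    · refine Finset.card_image_le.trans ?_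
      rw [Finset.card_erase_of_mem (Finset.mem_erase.2 ⟨hij.symm, Finset.mem_univ _⟩),
        Finset.card_erase_of_mem (Finset.mem_univ _), Finset.card_univ, Fintype.card_fin]
      omega
    · intro lam hl0 hli hlj l m hlm
      by_cases hlm' : l = m
      · subst hlm'
        rw [Matrix.one_apply_eq, mul_one, if_pos rfl]
        have h3 : l = i ∨ l = j := by
          by_contra hcon
          push Not at hcon
          apply hlm
          refine Finset.mem_image.2 ⟨l, ?_, rfl⟩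
          exact Finset.mem_erase.2 ⟨hcon.2, Finset.mem_erase.2 ⟨hcon.1, Finset.mem_univ _⟩⟩
        rcases h3 with rfl | rfl
        · rw [hli, inv_one]
        · rw [hlj, inv_one]
      · rw [Matrix.one_apply_ne hlm', mul_zero, if_neg hlm']
  have h5 := curves hk1 1 1 (mul_one 1) key
  simp only [Matrix.one_mulVec] at h5
  exact h5

end Pool.Agent.Y460.KH
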