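import Pool.Agent.Y460.KH.Ex

set_option autoImplicit false

/-!
# Exponential curves in general hypersurfaces: linear algebra
-/

namespace Pool.Agent.Y460.KH

open MvPolynomial

/-- completing an independent family by vectors of the standard basis -/
theorem complete {N : ℕ} (R : Finset (Fin N)) (v : Fin N → Fin N → ℂ)
    (hv : LinearIndepOn ℂ v (R : Set (Fin N))) :
    ∃ w : Fin N → Fin N → ℂ, (∀ l ∈ R, w l = v l) ∧
      (∀ l, l ∉ R → ∃ m, w l = Pi.single m 1) ∧ LinearIndependent ℂ w := by
  classical
  have key : ∀ T : Finset (Fin N), (∀ l ∈ T, l ∉ R) → ∃ w : Fin N → Fin N → ℂ,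
      (∀ l ∈ R, w l = v l) ∧ (∀ l ∈ T, ∃ m, w l = Pi.single m 1) ∧
      LinearIndepOn ℂ w ((R ∪ T : Finset (Fin N)) : Set (Fin N)) := by
    intro T
    induction T using Finset.induction_on with
    | empty =>
      intro _
      refine ⟨v, fun _ _ => rfl, by simp, ?_⟩
      rw [Finset.union_empty]
      exact hv
    | insert a T ha ih =>
      intro hT
      obtain ⟨w, h1, h2, h3⟩ := ih fun l hl => hT l (Finset.mem_insert_of_mem hl)
      have haR : a ∉ R := hT a (Finset.mem_insert_self _ _)
      -- a vector of the standard basis outside the span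
      obtain ⟨m, hm⟩ : ∃ m : Fin N, (Pi.single m 1 : Fin N → ℂ) ∉
          Submodule.span ℂ (w '' ((R ∪ T : Finset (Fin N)) : Set (Fin N))) := by
        by_contra hcon
        push Not at hcon
        have htop : Submodule.span ℂ (w '' ((R ∪ T : Finset (Fin N)) : Set (Fin N))) = ⊤ := by
          rw [eq_top_iff, ← (Pi.basisFun ℂ (Fin N)).span_eq, Submodule.span_le]
          rintro _ ⟨m, rfl⟩
          rw [Pi.basisFun_apply]
          exact hcon m
        have h4 : Module.finrank ℂ (Submodule.span ℂ
            (w '' ((R ∪ T : Finset (Fin N)) : Set (Fin N)))) ≤ (R ∪ T).card := by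
          rw [← Finset.coe_image]
          exact (finrank_span_finset_le_card _).trans Finset.card_image_le
        rw [htop, finrank_top, Module.finrank_fintype_fun_eq_card, Fintype.card_fin] at h4
        have h5 : (R ∪ T).card < N := by
          have h6 : R ∪ T ⊆ Finset.univ.erase a := by
            intro l hl
            rw [Finset.mem_erase]
            refine ⟨?_, Finset.mem_univ _⟩
            rintro rfl
            rcases Finset.mem_union.1 hl with h7 | h7
            · exact haR h7
            · exact ha h7
          have h7 := Finset.card_le_card h6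
          rw [Finset.card_erase_of_mem (Finset.mem_univ _), Finset.card_univ,
            Fintype.card_fin] at h7
          have := a.pos
          omega
        omega
      have hagree : ∀ l ∈ R ∪ T, Function.update w a (Pi.single m 1) l = w l := by
        intro l hl
        rw [Function.update_of_ne]
        rintro rfl
        rcases Finset.mem_union.1 hl with h7 | h7
        · exact haR h7
        · exact ha h7
      refine ⟨Function.update w a (Pi.single m 1), ?_, ?_, ?_⟩
      · intro l hl
        rw [hagree l (Finset.mem_union_left _ hl), h1 l hl]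
      · intro l hl
        rcases Finset.mem_insert.1 hl with rfl | hl
        · exact ⟨m, Function.update_self _ _ _⟩
        · rw [hagree l (Finset.mem_union_right _ hl)]
          exact h2 l hl
      · rw [Finset.union_insert, Finset.coe_insert]
        have h4 : LinearIndepOn ℂ (Function.update w a (Pi.single m 1))
            ((R ∪ T : Finset (Fin N)) : Set (Fin N)) :=
          h3.congr fun l hl => (hagree l hl).symm
        refine h4.insert ?_
        rw [Function.update_self]
        have h5 : Function.update w a (Pi.single m 1) '' ((R ∪ T : Finset (Fin N)) : Set (Fin N)) =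
            w '' ((R ∪ T : Finset (Fin N)) : Set (Fin N)) :=
          Set.image_congr fun l hl => hagree l hl
        rw [h5]
        exact hm
  obtain ⟨w, h1, h2, h3⟩ := key (Finset.univ \ R) fun l hl => (Finset.mem_sdiff.1 hl).2
  refine ⟨w, h1, fun l hl => h2 l (Finset.mem_sdiff.2 ⟨Finset.mem_univ _, hl⟩), ?_⟩
  rw [Finset.union_sdiff_of_subset (Finset.subset_univ R), Finset.coe_univ,
    linearIndepOn_univ] at h3
  exact h3

/-- **No exponential curves**: the case of independent directions. -/
theorem core4 (N d : ℕ) :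
    ∃ P : MvPolynomial (Dl N d) ℂ, P ≠ 0 ∧
      ∀ F : MvPolynomial (Fin N) ℂ, F.IsHomogeneous d →
      eval (fun γ : Dl N d => F.coeff γ) P ≠ 0 →
      ∀ (R : Finset (Fin N)) (θ : Fin N → ℂ)
        (_ : ∀ l ∈ R, ∀ l' ∈ R, θ l = θ l' → l = l') (v : Fin N → Fin N → ℂ),
      LinearIndepOn ℂ v (R : Set (Fin N)) →
      (∀ τ : ℂ, eval (∑ l ∈ R, Complex.exp (τ * θ l) • v l) F = 0) →
      2 ≤ R.card → 2 * (N - 2) < d + 1 → (3 ≤ R.card → N * R.card - 2 < d * (R.card - 1) + 1) →
      False := by
  classical
  obtain ⟨P, hP, hP'⟩ := core3 N d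
  refine ⟨P, hP, ?_⟩
  intro F hF hPF R θ hθ v hv hcurve hR hd2 hd3
  have hRne : R.Nonempty := Finset.card_pos.1 (by omega)
  -- the final step
  have fin : ∀ (θ' : Fin N → ℂ) (_ : ∀ l ∈ R, ∀ l' ∈ R, θ' l = θ' l' → l = l')
      (v' : Fin N → Fin N → ℂ), LinearIndepOn ℂ v' (R : Set (Fin N)) →
      (∀ τ : ℂ, eval (∑ l ∈ R, Complex.exp (τ * θ' l) • v' l) F = 0) →
      ∀ S : Finset (Fin N × Fin N), S.card < d * (R.card - 1) + 1 →
      (∀ l m, m ∈ R → (l, m) ∉ S → v' m l = 0 ∨ v' m l = 1) → False := by
    intro θ' hθ' v' hv' hc' S hS h01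
    obtain ⟨w, h1, h2, h3⟩ := complete R v' hv'
    have hdet : (Matrix.of fun l m => w m l).det ≠ 0 := by
      have h4 : IsUnit (Matrix.of fun l m => w m l) := by
        rw [← Matrix.linearIndependent_cols_iff_isUnit]
        exact h3
      exact ((Matrix.isUnit_iff_isUnit_det _).1 h4).ne_zero
    refine hP' F hF hPF R hRne θ' hθ' S hS (Matrix.of fun l m => w m l) hdet ?_ ?_
    · intro l m hlm
      by_cases hm : m ∈ R
      · show w m l = 0 ∨ w m l = 1
        rw [h1 m hm]
        exact h01 l m hm hlm
      · obtain ⟨m', hm'⟩ := h2 m hm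
        show w m l = 0 ∨ w m l = 1
        rw [hm']
        by_cases h4 : l = m'
        · right
          rw [h4, Pi.single_eq_same]
        · left
          rw [Pi.single_eq_of_ne h4]
    · intro τ
      have h4 : (fun l => ∑ m ∈ R, (Matrix.of fun l m => w m l) l m * Complex.exp (τ * θ' m)) =
          ∑ l ∈ R, Complex.exp (τ * θ' l) • v' l := by
        funext l
        rw [Finset.sum_apply]
        refine Finset.sum_congr rfl fun m hm => ?_
        rw [Pi.smul_apply, smul_eq_mul, ← h1 m hm, mul_comm]
        rfl
      rw [h4]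
      exact hc' τ
  -- scaling
  have hsc : ∀ (c : ℂ) (x : Fin N → ℂ), eval x F = 0 → eval (c • x) F = 0 := by
    intro c x hx
    have : eval (c • x) F = c ^ d * eval x F := by
      rw [expand hF, map_sum, map_sum, Finset.mul_sum]
      refine Finset.sum_congr rfl fun α hα => ?_
      rw [eval_monomial, eval_monomial, Finsupp.prod_fintype _ _ (fun l => pow_zero _),
        Finsupp.prod_fintype _ _ (fun l => pow_zero _)]
      simp only [Pi.smul_apply, smul_eq_mul]
      simp_rw [mul_pow]
      rw [Finset.prod_mul_distrib, Finset.prod_pow_eq_pow_sum, mem_Dl.1 hα]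
      ring
    rw [this, hx, mul_zero]
  obtain ⟨i, hi, j, hj, hij⟩ := Finset.one_lt_card.1 (show 1 < R.card by omega)
  have hθij : θ i - θ j ≠ 0 := by
    intro h1
    exact hij (hθ i hi j hj (sub_eq_zero.1 h1))
  rcases Nat.lt_or_ge R.card 3 with hR3 | hR3
  · -- lines
    have hRc : R.card = 2 := by omega
    have hRij : R = {i, j} := by
      symm
      refine Finset.eq_of_subset_of_card_le ?_ ?_
      · intro l hl
        rcases Finset.mem_insert.1 hl with rfl | hl
        · exact hi
        · rw [Finset.mem_singleton.1 hl]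
          exact hj
      · rw [hRc, Finset.card_pair hij]
    have hsum : ∀ f : Fin N → Fin N → ℂ, ∑ l ∈ R, f l = f i + f j := by
      intro f
      rw [hRij, Finset.sum_pair hij]
    -- the whole plane
    have hpl : ∀ x y : ℂ, x ≠ 0 → y ≠ 0 → eval (x • v i + y • v j) F = 0 := by
      intro x y hx hy
      obtain ⟨τ, hτ⟩ : ∃ τ : ℂ, Complex.exp (τ * (θ i - θ j)) = x / y := by
        refine ⟨Complex.log (x / y) / (θ i - θ j), ?_⟩
        rw [div_mul_cancel₀ _ hθij, Complex.exp_log (div_ne_zero hx hy)]
      have h1 := hsc (y / Complex.exp (τ * θ j)) _ (hcurve τ)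
      rw [hsum, smul_add, smul_smul, smul_smul, div_mul_cancel₀ _ (Complex.exp_ne_zero _)] at h1
      have h2 : y / Complex.exp (τ * θ j) * Complex.exp (τ * θ i) = x := by
        have h3 : Complex.exp (τ * θ i) = Complex.exp (τ * (θ i - θ j)) *
            Complex.exp (τ * θ j) := by
          rw [← Complex.exp_add]
          congr 1
          ring
        rw [h3, hτ]
        have := Complex.exp_ne_zero (τ * θ j)
        field_simp
      rw [h2] at h1
      exact h1
    have hpl2 : ∀ x y : ℂ, eval (x • v i + y • v j) F = 0 := by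
      intro x y
      -- the polynomial function in `s`
      have hcont : Continuous fun s : ℂ => eval ((x + s) • v i + (y + s) • v j) F := by
        have h1 : Continuous fun u : Fin N → ℂ => eval u F := MvPolynomial.continuous_eval F
        refine h1.comp ?_
        fun_prop
      have hdense : ∀ᶠ s in nhdsWithin (0 : ℂ) {0}ᶜ,
          eval ((x + s) • v i + (y + s) • v j) F = 0 := by
        have h2 : ∀ᶠ s in nhdsWithin (0 : ℂ) {0}ᶜ, x + s ≠ 0 := by
          by_cases hx : x = 0
          · filter_upwards [self_mem_nhdsWithin] with s hs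
            rw [hx, zero_add]
            exact hs
          · refine (Continuous.continuousAt (by fun_prop)).eventually_ne ?_ |>.filter_mono
              nhdsWithin_le_nhds
            simpa using hx
        have h3 : ∀ᶠ s in nhdsWithin (0 : ℂ) {0}ᶜ, y + s ≠ 0 := by
          by_cases hy : y = 0
          · filter_upwards [self_mem_nhdsWithin] with s hs
            rw [hy, zero_add]
            exact hs
          · refine (Continuous.continuousAt (by fun_prop)).eventually_ne ?_ |>.filter_mono
              nhdsWithin_le_nhds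
            simpa using hy
        filter_upwards [h2, h3] with s hs1 hs2
        exact hpl _ _ hs1 hs2
      have h4 : Filter.Tendsto (fun s : ℂ => eval ((x + s) • v i + (y + s) • v j) F)
          (nhdsWithin (0 : ℂ) {0}ᶜ) (nhds (eval ((x + 0) • v i + (y + 0) • v j) F)) :=
        (hcont.tendsto 0).mono_left nhdsWithin_le_nhds
      have h5 : Filter.Tendsto (fun s : ℂ => eval ((x + s) • v i + (y + s) • v j) F)
          (nhdsWithin (0 : ℂ) {0}ᶜ) (nhds 0) :=
        (tendsto_const_nhds).congr' (hdense.mono fun s hs => hs.symm)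
      have h6 := tendsto_nhds_unique h4 h5
      rwa [add_zero, add_zero] at h6
    -- a nonzero minor
    have hindep : ∀ a b : ℂ, a • v i + b • v j = 0 → a = 0 ∧ b = 0 := by
      have h1 := hv
      rw [hRij, Finset.coe_pair] at h1
      exact (LinearIndepOn.pair_iff _ hij).1 h1
    obtain ⟨m1, m2, hm⟩ : ∃ m1 m2, v i m1 * v j m2 - v i m2 * v j m1 ≠ 0 := by
      by_contra hcon
      push Not at hcon
      obtain ⟨m1, hm1⟩ : ∃ m1, v i m1 ≠ 0 := by
        by_contra h2
        push Not at h2
        have := (hindep 1 0 (by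
          funext m
          simp [h2 m])).1
        exact one_ne_zero this
      have := (hindep (v j m1) (-(v i m1)) (by
        funext m
        have h3 := hcon m1 m
        simp only [Pi.add_apply, Pi.smul_apply, smul_eq_mul, Pi.zero_apply]
        linear_combination -h3)).2
      exact hm1 (neg_eq_zero.1 this)
    have hm12 : m1 ≠ m2 := by
      rintro rfl
      apply hm
      ring
    obtain ⟨D, hD⟩ : ∃ D, D = v i m1 * v j m2 - v i m2 * v j m1 := ⟨_, rfl⟩
    have hD0 : D ≠ 0 := hD ▸ hm
    obtain ⟨v', hv'i, hv'j⟩ : ∃ v' : Fin N → Fin N → ℂ,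
        v' i = (v j m2 / D) • v i - (v i m2 / D) • v j ∧
        v' j = (v i m1 / D) • v j - (v j m1 / D) • v i :=
      ⟨fun l => if l = i then (v j m2 / D) • v i - (v i m2 / D) • v j else
        (v i m1 / D) • v j - (v j m1 / D) • v i, if_pos rfl, if_neg (Ne.symm hij)⟩
    have e11 : v' i m1 = 1 := by
      rw [hv'i]
      simp only [Pi.sub_apply, Pi.smul_apply, smul_eq_mul]
      field_simp
      rw [hD]
      ring
    have e12 : v' i m2 = 0 := by
      rw [hv'i]
      simp only [Pi.sub_apply, Pi.smul_apply, smul_eq_mul]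
      field_simp
      ring
    have e21 : v' j m1 = 0 := by
      rw [hv'j]
      simp only [Pi.sub_apply, Pi.smul_apply, smul_eq_mul]
      field_simp
      ring
    have e22 : v' j m2 = 1 := by
      rw [hv'j]
      simp only [Pi.sub_apply, Pi.smul_apply, smul_eq_mul]
      field_simp
      rw [hD]
      ring
    refine fin (fun l => if l = i then 1 else 0) ?_ v' ?_ ?_
      ((Finset.univ \ {m1, m2}) ×ˢ R) ?_ ?_
    · intro l hl l' hl' h1
      rw [hRij, Finset.mem_insert, Finset.mem_singleton] at hl hl'
      rcases hl with rfl | rfl <;> rcases hl' with rfl | rfl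
      · rfl
      · simp [Ne.symm hij] at h1
      · simp [Ne.symm hij] at h1
      · rfl
    · rw [hRij, Finset.coe_pair]
      refine (LinearIndepOn.pair_iff _ hij).2 ?_
      intro a b hab
      have h1 := congrFun hab m1
      have h2 := congrFun hab m2
      simp only [Pi.add_apply, Pi.smul_apply, smul_eq_mul, Pi.zero_apply, e11, e12, e21, e22,
        mul_one, mul_zero, add_zero, zero_add] at h1 h2
      exact ⟨h1, h2⟩
    · intro τ
      rw [hsum, hv'i, hv'j, smul_sub, smul_sub, smul_smul, smul_smul, smul_smul, smul_smul]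
      obtain ⟨a, ha⟩ : ∃ a, a = Complex.exp (τ * if i = i then (1 : ℂ) else 0) := ⟨_, rfl⟩
      obtain ⟨b, hb⟩ : ∃ b, b = Complex.exp (τ * if j = i then (1 : ℂ) else 0) := ⟨_, rfl⟩
      rw [← ha, ← hb]
      have h1 := hpl2 (a * (v j m2 / D) - b * (v j m1 / D)) (b * (v i m1 / D) - a * (v i m2 / D))
      have h2 : (a * (v j m2 / D)) • v i - (a * (v i m2 / D)) • v j +
          ((b * (v i m1 / D)) • v j - (b * (v j m1 / D)) • v i) =
          (a * (v j m2 / D) - b * (v j m1 / D)) • v i +
          (b * (v i m1 / D) - a * (v i m2 / D)) • v j := by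
        rw [sub_smul, sub_smul]
        abel
      rw [h2]
      exact h1
    · rw [Finset.card_product, Finset.card_sdiff_of_subset (Finset.subset_univ _),
        Finset.card_pair hm12, Finset.card_univ, Fintype.card_fin, hRc]
      omega
    · intro l m hm hlm
      have hl : l = m1 ∨ l = m2 := by
        by_contra hcon
        push Not at hcon
        apply hlm
        rw [Finset.mem_product]
        refine ⟨?_, hm⟩
        simp [hcon.1, hcon.2]
      rw [hRij, Finset.mem_insert, Finset.mem_singleton] at hm
      rcases hm with rfl | rfl <;> rcases hl with rfl | rfl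
      · right; exact e11
      · left; exact e12
      · left; exact e21
      · right; exact e22
  · -- at least three directions
    have hne : ∀ l ∈ R, ∃ m, v l m ≠ 0 := by
      intro l hl
      have h1 := hv.ne_zero (i := l) hl
      by_contra hcon
      push Not at hcon
      exact h1 (funext hcon)
    obtain ⟨m1, hm1⟩ := hne i hi
    obtain ⟨m2, hm2⟩ := hne j hj
    obtain ⟨τ0, hτ0⟩ : ∃ τ0 : ℂ, Complex.exp (τ0 * (θ i - θ j)) = v j m2 / v i m1 := by
      refine ⟨Complex.log (v j m2 / v i m1) / (θ i - θ j), ?_⟩
      rw [div_mul_cancel₀ _ hθij, Complex.exp_log (div_ne_zero hm2 hm1)]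
    obtain ⟨ν, hν⟩ : ∃ ν, ν = v i m1 * Complex.exp (τ0 * θ i) := ⟨_, rfl⟩
    have hν0 : ν ≠ 0 := hν ▸ mul_ne_zero hm1 (Complex.exp_ne_zero _)
    have hν2 : ν = v j m2 * Complex.exp (τ0 * θ j) := by
      rw [hν]
      have h1 : Complex.exp (τ0 * θ i) = Complex.exp (τ0 * (θ i - θ j)) *
          Complex.exp (τ0 * θ j) := by
        rw [← Complex.exp_add]
        congr 1
        ring
      rw [h1, hτ0]
      field_simp
    obtain ⟨v', hv'⟩ : ∃ v' : Fin N → Fin N → ℂ, ∀ l,
        v' l = (Complex.exp (τ0 * θ l) / ν) • v l := ⟨_, fun _ => rfl⟩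
    refine fin θ hθ v' ?_ ?_ ((Finset.univ ×ˢ R) \ {(m1, i), (m2, j)}) ?_ ?_
    · have h1 : LinearIndepOn ℂ (fun l => ((Units.mk0 (Complex.exp (τ0 * θ l) / ν)
          (div_ne_zero (Complex.exp_ne_zero _) hν0) : ℂˣ) : ℂ) • v l) (R : Set (Fin N)) := by
        have h2 : LinearIndependent ℂ (fun l : (R : Set (Fin N)) => v l) := hv
        exact h2.units_smul (fun l : (R : Set (Fin N)) =>
          Units.mk0 (Complex.exp (τ0 * θ l) / ν) (div_ne_zero (Complex.exp_ne_zero _) hν0))
      refine h1.congr fun l _ => ?_
      rw [hv']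
      rfl
    · intro τ
      have h1 := hsc ν⁻¹ _ (hcurve (τ + τ0))
      have h2 : ν⁻¹ • ∑ l ∈ R, Complex.exp ((τ + τ0) * θ l) • v l =
          ∑ l ∈ R, Complex.exp (τ * θ l) • v' l := by
        rw [Finset.smul_sum]
        refine Finset.sum_congr rfl fun l _ => ?_
        rw [hv', smul_smul, smul_smul, add_mul, Complex.exp_add]
        congr 1
        field_simp
      rw [h2] at h1
      exact h1
    · have h1 : ({(m1, i), (m2, j)} : Finset (Fin N × Fin N)) ⊆ Finset.univ ×ˢ R := by
        intro x hx
        rw [Finset.mem_insert, Finset.mem_singleton] at hx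
        rw [Finset.mem_product]
        rcases hx with rfl | rfl
        · exact ⟨Finset.mem_univ _, hi⟩
        · exact ⟨Finset.mem_univ _, hj⟩
      rw [Finset.card_sdiff_of_subset h1, Finset.card_product, Finset.card_univ, Fintype.card_fin,
        Finset.card_pair (by
          intro h2
          exact hij (congrArg Prod.snd h2))]
      exact hd3 hR3
    · intro l m hm hlm
      have h1 : (l, m) = (m1, i) ∨ (l, m) = (m2, j) := by
        by_contra hcon
        push Not at hcon
        apply hlm
        rw [Finset.mem_sdiff, Finset.mem_product, Finset.mem_insert, Finset.mem_singleton]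
        refine ⟨⟨Finset.mem_univ _, hm⟩, ?_⟩
        rintro (h2 | h2)
        · exact hcon.1 h2
        · exact hcon.2 h2
      right
      rcases h1 with h1 | h1
      · obtain ⟨rfl, rfl⟩ := Prod.mk.inj h1
        rw [hv']
        simp only [Pi.smul_apply, smul_eq_mul]
        rw [hν]
        have := Complex.exp_ne_zero (τ0 * θ m)
        field_simp
      · obtain ⟨rfl, rfl⟩ := Prod.mk.inj h1
        rw [hv']
        simp only [Pi.smul_apply, smul_eq_mul]
        rw [hν2]
        have := Complex.exp_ne_zero (τ0 * θ m)
        field_simp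

end Pool.Agent.Y460.KH
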