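import Pool.Agent.Y460.KH.An

set_option autoImplicit false

/-!
# General hypersurfaces: assembly
-/

namespace Pool.Agent.Y460.KH

open MvPolynomial

/-- matrices with prescribed entries outside a set of `p` positions depend polynomially on `p`
parameters -/
theorem param_matrix {N p : ℕ} (S : Finset (Fin N × Fin N)) (hS : S.card = p)
    (K : Fin N → Fin N → ℂ) :
    ∃ β : Fin N → Fin N → MvPolynomial (Fin p) ℂ, ∀ B : Fin N → Fin N → ℂ,
      (∀ l m, (l, m) ∉ S → B l m = K l m) →
      ∃ t : Fin p → ℂ, ∀ l m, eval t (β l m) = B l m := by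
  classical
  let e := S.equivFinOfCardEq hS
  refine ⟨fun l m => if h : (l, m) ∈ S then X (e ⟨(l, m), h⟩) else C (K l m), ?_⟩
  intro B hB
  refine ⟨fun x => B (e.symm x).1.1 (e.symm x).1.2, ?_⟩
  intro l m
  by_cases h : (l, m) ∈ S
  · simp only [dif_pos h, eval_X, Equiv.symm_apply_apply]
  · simp only [dif_neg h, eval_C]
    exact (hB l m h).symm

/-- the dimension count for finitely many types -/
theorem family_poly {N d : ℕ} {ι : Type} [Fintype ι] (S : Fin N → Fin N → ι → Finset (Fin N × Fin N))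
    (K : Fin N → Fin N → ι → Fin N → Fin N → ℂ) :
    ∃ P : MvPolynomial (Dl N d) ℂ, P ≠ 0 ∧ ∀ (i j : Fin N) (u : ι) (κ : (Fin N →₀ ℕ) → ℕ),
      (S i j u).card ≤ d → (∀ a ≤ d, κ (al i j d a) = a) → (∀ α, κ α ≤ d + 1) →
      ∀ G : MvPolynomial (Fin N) ℂ, G.IsHomogeneous d →
      (∀ a ≤ d, ∑ α ∈ (Dl N d).filter (fun α => κ α = a), G.coeff α = 0) →
      ∀ B : Fin N → Fin N → ℂ, (∀ l m, (l, m) ∉ S i j u → B l m = K i j u l m) →
        eval (fun γ : Dl N d => (sub B G).coeff γ) P = 0 := by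
  classical
  -- one type
  have one : ∀ τ : Fin N × Fin N × ι × (Dl N d → Fin (d + 2)),
      ∃ P : MvPolynomial (Dl N d) ℂ, P ≠ 0 ∧ ∀ κ : (Fin N →₀ ℕ) → ℕ,
        (∀ α : Dl N d, κ α = τ.2.2.2 α) →
        (S τ.1 τ.2.1 τ.2.2.1).card ≤ d → (∀ a ≤ d, κ (al τ.1 τ.2.1 d a) = a) →
        ∀ G : MvPolynomial (Fin N) ℂ, G.IsHomogeneous d →
        (∀ a ≤ d, ∑ α ∈ (Dl N d).filter (fun α => κ α = a), G.coeff α = 0) →
        ∀ B : Fin N → Fin N → ℂ,
          (∀ l m, (l, m) ∉ S τ.1 τ.2.1 τ.2.2.1 → B l m = K τ.1 τ.2.1 τ.2.2.1 l m) →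
          eval (fun γ : Dl N d => (sub B G).coeff γ) P = 0 := by
    rintro ⟨i, j, u, κ'⟩
    by_cases hex : (S i j u).card ≤ d ∧ ∃ κ : (Fin N →₀ ℕ) → ℕ, (∀ α : Dl N d, κ α = κ' α) ∧
        ∀ a ≤ d, κ (al i j d a) = a
    · obtain ⟨hc, κ, h1, h2⟩ := hex
      obtain ⟨β, hβ⟩ := param_matrix (S i j u) rfl (K i j u)
      obtain ⟨P, hP, hP'⟩ := type_poly hc i j κ h2 β
      refine ⟨P, hP, ?_⟩
      intro κ2 h3 _ _ G hG hGa B hB
      obtain ⟨t, ht⟩ := hβ B hB
      have h4 := hP' G hG (by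
        intro a ha
        rw [← hGa a ha]
        refine Finset.sum_congr (Finset.filter_congr fun α hα => ?_) fun _ _ => rfl
        have e1 : κ α = κ2 α := by
          have := h1 ⟨α, hα⟩
          have h5 := h3 ⟨α, hα⟩
          simp only at this h5
          rw [this, h5]
        rw [e1]) t
      have h5 : (fun l m => eval t (β l m)) = B := by
        funext l m
        exact ht l m
      rw [h5] at h4
      exact h4
    · refine ⟨1, one_ne_zero, ?_⟩
      intro κ h1 h2 h3
      exact (hex ⟨h2, κ, h1, h3⟩).elim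
  choose P hP hP' using one
  refine ⟨∏ τ, P τ, Finset.prod_ne_zero_iff.2 fun τ _ => hP τ, ?_⟩
  intro i j u κ hc h1 h2 G hG hGa B hB
  rw [map_prod]
  refine Finset.prod_eq_zero (Finset.mem_univ
    (⟨i, j, u, fun α => ⟨κ α, by have := h2 α; omega⟩⟩ :
      Fin N × Fin N × ι × (Dl N d → Fin (d + 2)))) ?_
  exact hP' _ κ (fun α => rfl) hc h1 G hG hGa B hB

/-- coefficients after a diagonal substitution -/
theorem coeff_sub_diag {N d : ℕ} {F : MvPolynomial (Fin N) ℂ} (hF : F.IsHomogeneous d)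
    (lam : Fin N → ℂ) (α : Fin N →₀ ℕ) :
    (sub (fun l m => if l = m then lam l else 0) F).coeff α = F.coeff α * ∏ l, lam l ^ α l := by
  classical
  have h1 : sub (fun l m => if l = m then lam l else 0) F =
      ∑ γ ∈ Dl N d, monomial γ (F.coeff γ * ∏ l, lam l ^ γ l) := by
    conv_lhs => rw [expand hF]
    unfold sub
    rw [map_sum]
    refine Finset.sum_congr rfl fun γ _ => ?_
    rw [bind₁_monomial]
    have h2 : ∀ l : Fin N, (∑ m, C (if l = m then lam l else 0) * X m : MvPolynomial (Fin N) ℂ) =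
        C (lam l) * X l := by
      intro l
      rw [Finset.sum_eq_single l]
      · simp
      · intro b _ hb
        simp [Ne.symm hb]
      · simp
    simp only [h2]
    have h3 : ∏ l ∈ γ.support, (C (lam l) * X l : MvPolynomial (Fin N) ℂ) ^ γ l =
        C (∏ l, lam l ^ γ l) * monomial γ 1 := by
      rw [map_prod, ← Finset.prod_subset (Finset.subset_univ γ.support)]
      · rw [MvPolynomial.monomial_eq, map_one, one_mul, Finsupp.prod, ← Finset.prod_mul_distrib]
        refine Finset.prod_congr rfl fun l _ => ?_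
        rw [mul_pow, map_pow]
      · intro l _ hl
        have h4 : γ l = 0 := by simpa using hl
        rw [h4, pow_zero, map_one]
    rw [h3, ← mul_assoc, ← map_mul, C_mul_monomial, mul_one]
  rw [h1, coeff_sum]
  simp only [coeff_monomial]
  rw [Finset.sum_ite_eq']
  split_ifs with h
  · rfl
  · have h2 : F.coeff α = 0 := by
      rw [expand hF, coeff_sum]
      simp only [coeff_monomial]
      rw [Finset.sum_ite_eq', if_neg h]
    rw [h2, zero_mul]

/-- `P` is not identically zero on forms of degree `d` -/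
theorem exists_form {N d : ℕ} {P : MvPolynomial (Dl N d) ℂ} (hP : P ≠ 0) :
    ∃ F₀ : MvPolynomial (Fin N) ℂ, F₀.IsHomogeneous d ∧
      eval (fun m => F₀.coeff m) (rename (Subtype.val : Dl N d → (Fin N →₀ ℕ)) P) ≠ 0 := by
  classical
  obtain ⟨v, hv⟩ : ∃ v : Dl N d → ℂ, eval v P ≠ 0 := by
    by_contra hcon
    push Not at hcon
    apply hP
    refine MvPolynomial.funext fun v => ?_
    rw [hcon v, map_zero]
  refine ⟨∑ γ : Dl N d, monomial (γ : Fin N →₀ ℕ) (v γ), ?_, ?_⟩
  · refine MvPolynomial.IsHomogeneous.sum _ _ _ fun γ _ => ?_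
    refine isHomogeneous_monomial _ ?_
    have h1 := mem_Dl.1 γ.2
    rw [Finsupp.degree_eq_sum]
    exact h1
  · rw [eval_rename]
    have h1 : (fun m => (∑ γ : Dl N d, monomial (γ : Fin N →₀ ℕ) (v γ)).coeff m) ∘
        (Subtype.val : Dl N d → (Fin N →₀ ℕ)) = v := by
      funext γ
      simp only [Function.comp_apply, coeff_sum, coeff_monomial]
      rw [Finset.sum_eq_single γ]
      · simp
      · intro b _ hb
        rw [if_neg]
        intro h2
        exact hb (Subtype.ext h2)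
      · simp
    rw [h1]
    exact hv

/-- a projectively nonconstant curve has two non-proportional coordinates -/
theorem const_of_pairs {N : ℕ} (h : ℂ → Fin N → ℂ) (h0 : ∀ z, h z ≠ 0)
    (hp : ∀ i j : Fin N, (∃ z, h z i ≠ 0) → (∃ z, h z j ≠ 0) → ∃ c : ℂ, ∀ z, h z i = c * h z j) :
    ∀ z, ∃ c : ℂ, h z = c • h 0 := by
  classical
  obtain ⟨j, hj⟩ : ∃ j, h 0 j ≠ 0 := by
    by_contra hcon
    push Not at hcon
    exact h0 0 (funext hcon)
  have hc : ∀ i, ∃ c : ℂ, ∀ z, h z i = c * h z j := by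
    intro i
    by_cases hi : ∃ z, h z i ≠ 0
    · exact hp i j hi ⟨0, hj⟩
    · push Not at hi
      exact ⟨0, fun z => by rw [hi z, zero_mul]⟩
  choose c hc using hc
  intro z
  refine ⟨h z j / h 0 j, ?_⟩
  funext i
  rw [Pi.smul_apply, smul_eq_mul, hc i z, hc i 0]
  field_simp

theorem entire_log {u : ℂ → ℂ} (hu : Differentiable ℂ u) (h0 : ∀ z, u z ≠ 0) :
    ∃ g : ℂ → ℂ, Differentiable ℂ g ∧ ∀ z, u z = Complex.exp (g z) := by
  have hd : Differentiable ℂ (fun z => deriv u z / u z) := by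
    intro z
    exact ((hu.deriv).differentiableAt).div hu.differentiableAt (h0 z)
  obtain ⟨g, hg⟩ := hd.isExactOn_univ
  have hgd : ∀ z, HasDerivAt g (deriv u z / u z) z := fun z => hg z (Set.mem_univ z)
  have hconst : ∀ z, u z * Complex.exp (-g z) = u 0 * Complex.exp (-g 0) := by
    have hder : ∀ z, HasDerivAt (fun z => u z * Complex.exp (-g z)) 0 z := by
      intro z
      have h1 : HasDerivAt u (deriv u z) z := hu.differentiableAt.hasDerivAt
      have h2 : HasDerivAt (fun z => Complex.exp (-g z))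
          (Complex.exp (-g z) * (-(deriv u z / u z))) z := ((hgd z).neg).cexp
      have h3 := h1.mul h2
      have h4 : deriv u z * Complex.exp (-g z) +
          u z * (Complex.exp (-g z) * (-(deriv u z / u z))) = 0 := by
        have := h0 z
        field_simp
        ring
      rw [← h4]
      exact h3
    intro z
    exact is_const_of_deriv_eq_zero (fun z => (hder z).differentiableAt)
      (fun z => (hder z).deriv) z 0
  obtain ⟨c, hc⟩ : ∃ c : ℂ, c = u 0 * Complex.exp (-g 0) := ⟨_, rfl⟩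
  have hc0 : c ≠ 0 := by
    rw [hc]
    exact mul_ne_zero (h0 0) (Complex.exp_ne_zero _)
  refine ⟨fun z => g z + Complex.log c, ?_, ?_⟩
  · intro z
    exact ((hgd z).differentiableAt).add_const _
  · intro z
    rw [Complex.exp_add, Complex.exp_log hc0, hc, ← hconst z, Complex.exp_neg]
    field_simp [Complex.exp_ne_zero]

/-- zero-free entire functions are powers -/
theorem entire_root {u : ℂ → ℂ} (hu : Differentiable ℂ u) (h0 : ∀ z, u z ≠ 0) {k : ℕ} (hk : 1 ≤ k) :
    ∃ v : ℂ → ℂ, Differentiable ℂ v ∧ ∀ z, u z = v z ^ k := by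
  obtain ⟨g, hg, hgu⟩ := entire_log hu h0
  refine ⟨fun z => Complex.exp (g z / k), (hg.div_const _).cexp, ?_⟩
  intro z
  rw [hgu z, ← Complex.exp_nat_mul]
  congr 1
  have : (k : ℂ) ≠ 0 := by
    have : k ≠ 0 := by omega
    exact_mod_cast this
  field_simp

theorem eval_mulVec {N : ℕ} (A : Matrix (Fin N) (Fin N) ℂ) (G : MvPolynomial (Fin N) ℂ)
    (x : Fin N → ℂ) : eval x (sub (fun l m => A l m) G) = eval (A.mulVec x) G := by
  rw [eval_sub]
  rfl


end Pool.Agent.Y460.KH
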