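import Pool.Agent.H159R3.NV.Final
import Pool.Agent.Y460.KH.Alg

set_option autoImplicit false

/-!
# General hypersurfaces: the analytic part
-/

namespace Pool.Agent.Y460.KH

open MvPolynomial Pool.Agent.H159R3.NV

/-- the entire functions form an integral domain -/
theorem entire_dom {f g : ℂ → ℂ} (hf : Differentiable ℂ f) (hg : Differentiable ℂ g)
    (h : ∀ z, f z * g z = 0) : (∀ z, f z = 0) ∨ (∀ z, g z = 0) := by
  by_contra hcon
  push Not at hcon
  obtain ⟨⟨z0, h0⟩, ⟨z1, h1⟩⟩ := hcon
  apply h1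
  have h2 : ∀ᶠ z in nhds z0, f z ≠ 0 := hf.continuous.continuousAt.eventually_ne h0
  have h3 : g =ᶠ[nhds z0] 0 := by
    filter_upwards [h2] with z hz
    exact (mul_eq_zero.1 (h z)).resolve_left hz
  have := AnalyticOnNhd.eqOn_zero_of_preconnected_of_eventuallyEq_zero
    (f := g) (U := Set.univ) (fun z _ => hg.analyticAt z) isPreconnected_univ (Set.mem_univ z0) h3
  exact this (Set.mem_univ z1)

/-- finitely many nonzero entire functions have a common non-zero -/
theorem exists_common {ι : Type} (S : Finset ι) (f : ι → ℂ → ℂ) (hf : ∀ i, Differentiable ℂ (f i))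
    (h : ∀ i ∈ S, ∃ z, f i z ≠ 0) : ∃ z, ∀ i ∈ S, f i z ≠ 0 := by
  classical
  have key : ∀ S' ⊆ S, ∃ z, ∏ i ∈ S', f i z ≠ 0 := by
    intro S'
    induction S' using Finset.induction_on with
    | empty => intro _; exact ⟨0, by simp⟩
    | insert a S' ha ih =>
      intro hS
      obtain ⟨z1, h1⟩ := ih ((Finset.subset_insert _ _).trans hS)
      obtain ⟨z2, h2⟩ := h a (hS (Finset.mem_insert_self _ _))
      by_contra hcon
      push Not at hcon
      have h3 := entire_dom (hf a) (g := fun z => ∏ i ∈ S', f i z)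
        (by
          intro z
          exact (DifferentiableAt.fun_finsetProd fun i _ => (hf i) z))
        (by
          intro z
          have := hcon z
          rw [Finset.prod_insert ha] at this
          exact this)
      rcases h3 with h3 | h3
      · exact h2 (h3 z2)
      · exact h1 (h3 z1)
  obtain ⟨z, hz⟩ := key S (Finset.Subset.refl _)
  exact ⟨z, fun i hi => by
    intro h0
    exact hz (Finset.prod_eq_zero hi h0)⟩

/-- specialisation principle for powers of entire functions -/
theorem powers_spec {s N : ℕ} (hN : (s - 1) ^ 2 ≤ N) {ι : Type} [DecidableEq ι]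
    (H : ι → ℂ → ℂ) (hd : ∀ i, Differentiable ℂ (H i)) (x : ι → ℂ) (T : Finset ι)
    (hx : ∀ i ∈ T, ∀ j ∈ T, ∀ c : ℂ, (∀ z, H i z = c * H j z) → x i = c ^ N * x j)
    (hT : ∀ i ∈ T, ∃ z, H i z ≠ 0) :
    ∀ S : Finset ι, S ⊆ T → S.card ≤ s → ∀ c : ι → ℂ, (∀ z, ∑ i ∈ S, c i * H i z ^ N = 0) →
      ∑ i ∈ S, c i * x i = 0 := by
  intro S
  induction S using Finset.strongInduction with
  | H S ih =>
    intro hST hS c hc
    by_cases hp : ∃ i ∈ S, ∃ j ∈ S, i ≠ j ∧ ∃ a : ℂ, ∀ z, H i z = a * H j z
    · obtain ⟨i, hi, j, hj, hij, a, ha⟩ := hp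
      let c' : ι → ℂ := Function.update c j (c j + c i * a ^ N)
      have hjS : j ∈ S.erase i := Finset.mem_erase.mpr ⟨hij.symm, hj⟩
      have e1 : ∀ (y : ι → ℂ), ∑ k ∈ (S.erase i).erase j, c' k * y k
            = ∑ k ∈ (S.erase i).erase j, c k * y k := by
        intro y
        refine Finset.sum_congr rfl fun k hk => ?_
        have hkj : k ≠ j := (Finset.mem_erase.mp hk).1
        simp only [c', Function.update_of_ne hkj]
      have e3 : ∀ y : ι → ℂ, y i = a ^ N * y j → ∑ k ∈ S.erase i, c' k * y k =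
          ∑ k ∈ S, c k * y k := by
        intro y hy
        rw [← Finset.add_sum_erase S _ hi, ← Finset.add_sum_erase (S.erase i) _ hjS,
          ← Finset.add_sum_erase (S.erase i) (fun k => c k * y k) hjS, e1]
        simp only [c', Function.update_self]
        rw [hy]
        ring
      have h1 := ih (S.erase i) (Finset.erase_ssubset hi)
        ((Finset.erase_subset _ _).trans hST)
        ((Finset.card_le_card (Finset.erase_subset _ _)).trans hS) c' (by
          intro w
          rw [e3 (fun k => H k w ^ N) (by rw [ha w, mul_pow])]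
          exact hc w)
      rw [e3 x (hx i (hST hi) j (hST hj) a ha)] at h1
      exact h1
    · push Not at hp
      have h1 := powers_independent hN H hd S hS (fun i hi => hT i (hST hi))
        (fun i hi j hj hij a => by
          obtain ⟨z, hz⟩ := hp i hi j hj hij a
          exact ⟨z, sub_ne_zero.2 hz⟩) c hc
      refine Finset.sum_eq_zero fun i hi => ?_
      rw [h1 i hi, zero_mul]

/-- monomials in entire functions -/
def Hm {N : ℕ} (h : Fin N → ℂ → ℂ) (α : Fin N →₀ ℕ) (z : ℂ) : ℂ := ∏ l, h l z ^ α l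

theorem Hm_diff {N : ℕ} (h : Fin N → ℂ → ℂ) (hh : ∀ l, Differentiable ℂ (h l))
    (α : Fin N →₀ ℕ) : Differentiable ℂ (Hm h α) := by
  intro z
  exact DifferentiableAt.fun_finsetProd fun l _ => ((hh l) z).pow _

theorem Hm_al {N : ℕ} (h : Fin N → ℂ → ℂ) {i j : Fin N} (hij : i ≠ j) (d a : ℕ) (z : ℂ) :
    Hm h (al i j d a) z = h i z ^ a * h j z ^ (d - a) := by
  unfold Hm
  have h1 : ∀ l, h l z ^ (al i j d a) l = (if l = i then h i z ^ a else 1) *
      (if l = j then h j z ^ (d - a) else 1) := by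
    intro l
    simp only [al, Finsupp.add_apply, pow_add]
    congr 1
    · by_cases hl : l = i
      · subst hl; simp
      · simp [Finsupp.single_apply, hl, Ne.symm hl]
    · by_cases hl : l = j
      · subst hl; simp
      · simp [Finsupp.single_apply, hl, Ne.symm hl]
  simp_rw [h1]
  rw [Finset.prod_mul_distrib]
  simp

/-- powers of two non-proportional entire functions are not proportional -/
theorem prop_of_pow {f g : ℂ → ℂ} (hf : Differentiable ℂ f) (hg : Differentiable ℂ g) {m : ℕ}
    (hm : 0 < m) {c : ℂ} (h : ∀ z, f z ^ m = c * g z ^ m) : ∃ c' : ℂ, ∀ z, f z = c' * g z := by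
  classical
  obtain ⟨e, he⟩ := IsAlgClosed.exists_pow_nat_eq c hm
  have h1 : ∀ z, f z ^ m - (e * g z) ^ m = 0 := by
    intro z
    rw [h z, mul_pow, he, sub_self]
  obtain ⟨ζ, hζ⟩ : ∃ ζ : ℂ, IsPrimitiveRoot ζ m := ⟨_, Complex.isPrimitiveRoot_exp m hm.ne'⟩
  have h2 : ∀ z, ∏ μ ∈ Polynomial.nthRootsFinset m (1 : ℂ), (f z - μ * (e * g z)) = 0 := by
    intro z
    rw [← hζ.pow_sub_pow_eq_prod_sub_mul (f z) (e * g z) hm]
    exact h1 z
  by_contra hcon
  push Not at hcon
  obtain ⟨z, hz⟩ := exists_common (Polynomial.nthRootsFinset m (1 : ℂ))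
    (fun μ z => f z - μ * (e * g z))
    (fun μ => hf.sub ((hg.const_mul _).const_mul _))
    (fun μ _ => by
      obtain ⟨z, hz⟩ := hcon (μ * e)
      refine ⟨z, ?_⟩
      intro h0
      apply hz
      linear_combination h0)
  exact Finset.prod_ne_zero_iff.2 hz (h2 z)

theorem wronskian_ne {f g : ℂ → ℂ} (hf : Differentiable ℂ f) (hg : Differentiable ℂ g)
    (hg0 : ∃ z, g z ≠ 0) (h : ∀ c : ℂ, ∃ z, f z ≠ c * g z) :
    ∃ z, deriv f z * g z - f z * deriv g z ≠ 0 := by
  by_contra hcon
  push Not at hcon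
  obtain ⟨z1, h1⟩ := hg0
  obtain ⟨w, hw⟩ := h (f z1 / g z1)
  apply hw
  -- the function `f - (f z1 / g z1) g` vanishes near `z1`
  have hne : ∀ᶠ z in nhds z1, g z ≠ 0 := hg.continuous.continuousAt.eventually_ne h1
  obtain ⟨r, hr, hball⟩ := Metric.eventually_nhds_iff_ball.1 hne
  have hq : ∀ z ∈ Metric.ball z1 r, HasDerivAt (fun z => f z / g z) 0 z := by
    intro z hz
    have h3 := (hf z).hasDerivAt.div (hg z).hasDerivAt (hball z hz)
    have h4 : (deriv f z * g z - f z * deriv g z) / g z ^ 2 = 0 := by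
      rw [hcon z, zero_div]
    rw [h4] at h3
    exact h3
  have hconst : ∀ z ∈ Metric.ball z1 r, f z / g z = f z1 / g z1 := by
    intro z hz
    have := (convex_ball z1 r).is_const_of_fderivWithin_eq_zero (𝕜 := ℂ)
      (f := fun z => f z / g z)
      (fun x hx => (hq x hx).differentiableAt.differentiableWithinAt)
      (fun x hx => by
        rw [fderivWithin_of_isOpen Metric.isOpen_ball hx]
        ext
        simp [(hq x hx).deriv])
      hz (Metric.mem_ball_self hr)
    exact this
  have h5 : (fun z => f z - f z1 / g z1 * g z) =ᶠ[nhds z1] 0 := by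
    filter_upwards [Metric.ball_mem_nhds z1 hr] with z hz
    have h6 := hconst z hz
    have h7 := hball z hz
    show f z - f z1 / g z1 * g z = 0
    rw [← h6]
    field_simp
    ring
  have h8 := AnalyticOnNhd.eqOn_zero_of_preconnected_of_eventuallyEq_zero
    (f := fun z => f z - f z1 / g z1 * g z) (U := Set.univ)
    (fun z _ => (hf.sub (hg.const_mul _)).analyticAt z) isPreconnected_univ
    (Set.mem_univ z1) h5
  have h9 : f w - f z1 / g z1 * g w = 0 := h8 (Set.mem_univ w)
  linear_combination h9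

end Pool.Agent.Y460.KH
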