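import Pool.Agent.Y460.KH.Lin
import Pool.Agent.Y460.KH.Fin

set_option autoImplicit false

/-!
# General hypersurfaces: the full range of degrees
-/

namespace Pool.Agent.Y460.KH

open MvPolynomial Pool.Agent.H159R3.NV

/-- **Entire curves give exponential curves.** -/
theorem analysis2 {N d k : ℕ} (hk : ((Dl N d).card - 1) ^ 2 ≤ k) (hk1 : 1 ≤ k)
    {F : MvPolynomial (Fin N) ℂ} (hF : F.IsHomogeneous d) (h : Fin N → ℂ → ℂ)
    (hh : ∀ l, Differentiable ℂ (h l)) (h0 : ∀ z, eval (fun l => h l z ^ k) F = 0)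
    {i j : Fin N} (hi : ∃ z, h i z ≠ 0) (hj : ∃ z, h j z ≠ 0)
    (hij : ∀ c : ℂ, ∃ z, h i z ≠ c * h j z) :
    ∃ (U : Finset (Fin N)) (μ θ : Fin N → ℂ), i ∈ U ∧ j ∈ U ∧ θ i ≠ θ j ∧
      (∀ l ∈ U, μ l ≠ 0) ∧
      ∀ τ : ℂ, eval (fun l => if l ∈ U then μ l * Complex.exp (τ * θ l) else 0) F = 0 := by
  classical
  obtain ⟨U, hU⟩ : ∃ U : Finset (Fin N), ∀ l, l ∈ U ↔ ∃ z, h l z ≠ 0 :=
    ⟨Finset.univ.filter fun l => ∃ z, h l z ≠ 0, fun l => by simp⟩
  -- replace the zero functions by `1`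
  obtain ⟨g, hg⟩ : ∃ g : Fin N → ℂ → ℂ, ∀ l, g l = if (∃ z, h l z ≠ 0) then h l else fun _ => 1 :=
    ⟨_, fun _ => rfl⟩
  have hgd : ∀ l, Differentiable ℂ (g l) := by
    intro l
    rw [hg l]
    split_ifs
    · exact hh l
    · exact differentiable_const _
  have hgn : ∀ l, ∃ z, g l z ≠ 0 := by
    intro l
    rw [hg l]
    split_ifs with h1
    · exact h1
    · exact ⟨0, one_ne_zero⟩
  have hgi : g i = h i := by rw [hg, if_pos hi]
  have hgj : g j = h j := by rw [hg, if_pos hj]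
  -- a good point
  obtain ⟨z0, hz0⟩ : ∃ z0, (∀ l, g l z0 ≠ 0) ∧
      deriv (h i) z0 * h j z0 - h i z0 * deriv (h j) z0 ≠ 0 := by
    obtain ⟨z, hz⟩ := exists_common (Finset.univ : Finset (Option (Fin N)))
      (fun o => Option.elim o (fun z => deriv (h i) z * h j z - h i z * deriv (h j) z) g)
      (by
        rintro (_ | l)
        · exact (((hh i).deriv).mul (hh j)).sub ((hh i).mul ((hh j).deriv))
        · exact hgd l)
      (by
        rintro (_ | l) _
        · exact wronskian_ne (hh i) (hh j) hj hij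
        · exact hgn l)
    exact ⟨z, fun l => hz (some l) (Finset.mem_univ _), hz none (Finset.mem_univ _)⟩
  obtain ⟨hz0, hW⟩ := hz0
  have hTg : ∀ α ∈ DR N d U, Hm h α = Hm g α := by
    intro α hα
    funext z
    refine Finset.prod_congr rfl fun l _ => ?_
    by_cases hl : ∃ z, h l z ≠ 0
    · rw [hg l, if_pos hl]
    · rw [(mem_DR.1 hα).2 l (fun h1 => hl ((hU l).1 h1)), pow_zero, pow_zero]
  have hTne : ∀ α ∈ DR N d U, Hm h α z0 ≠ 0 := by
    intro α hα
    rw [hTg α hα]
    exact Finset.prod_ne_zero_iff.2 fun l _ => pow_ne_zero _ (hz0 l)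
  -- the relation
  have hrel : ∀ z, ∑ α ∈ DR N d U, F.coeff α * Hm h α z ^ k = 0 := by
    intro z
    have h1 := h0 z
    rw [expand hF, map_sum] at h1
    have h2 : ∀ α ∈ Dl N d, eval (fun l => h l z ^ k) (monomial α (F.coeff α)) =
        F.coeff α * Hm h α z ^ k := by
      intro α _
      rw [eval_monomial]
      congr 1
      unfold Hm
      rw [Finsupp.prod_fintype _ _ (fun l => pow_zero _), ← Finset.prod_pow]
      refine Finset.prod_congr rfl fun l _ => ?_
      rw [← pow_mul, ← pow_mul, mul_comm]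
    rw [Finset.sum_congr rfl h2] at h1
    rw [← h1]
    refine Finset.sum_subset (fun α hα => (mem_DR.1 hα).1) ?_
    intro α hα hαT
    have h3 : ∃ l, (¬ ∃ z, h l z ≠ 0) ∧ α l ≠ 0 := by
      by_contra hcon
      push Not at hcon
      apply hαT
      rw [mem_DR]
      refine ⟨hα, fun l hl => hcon l ?_⟩
      rw [hU] at hl
      push Not at hl
      exact hl
    obtain ⟨l, hl, hαl⟩ := h3
    push Not at hl
    have h4 : Hm h α z = 0 := Finset.prod_eq_zero (Finset.mem_univ l) (by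
      rw [hl z, zero_pow hαl])
    rw [h4, zero_pow (by omega), mul_zero]
  obtain ⟨μ, hμ⟩ : ∃ μ : Fin N → ℂ, ∀ l, μ l = g l z0 ^ k := ⟨_, fun _ => rfl⟩
  have hμT : ∀ α ∈ DR N d U, ∏ l, μ l ^ α l = Hm h α z0 ^ k := by
    intro α hα
    rw [hTg α hα]
    unfold Hm
    rw [← Finset.prod_pow]
    refine Finset.prod_congr rfl fun l _ => ?_
    rw [hμ, ← pow_mul, ← pow_mul, mul_comm]
  obtain ⟨θ, hθ⟩ : ∃ θ : Fin N → ℂ, ∀ l, θ l = logDeriv (g l) z0 := ⟨_, fun _ => rfl⟩
  have hvl : ∀ α ∈ DR N d U, ∀ β ∈ DR N d U, ∀ c : ℂ, (∀ z, Hm h α z = c * Hm h β z) →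
      vl θ α = vl θ β := by
    intro α hα β hβ c hc
    have hc0 : c ≠ 0 := by
      intro h2
      apply hTne α hα
      rw [hc z0, h2, zero_mul]
    have h2 : Hm g α = fun z => c * Hm g β z := by
      rw [← hTg α hα, ← hTg β hβ]
      funext z
      exact hc z
    have h3 := Hm_logDeriv g hgd hz0 α
    rw [h2, logDeriv_const_mul _ _ hc0, Hm_logDeriv g hgd hz0] at h3
    simp only [← hθ] at h3
    exact h3.symm
  have hcls : ∀ c : ℂ, ∑ α ∈ DR N d U with vl θ α = c, F.coeff α * ∏ l, μ l ^ α l = 0 := by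
    intro c
    have h1 := powers_spec hk (Hm h) (Hm_diff h hh)
      (fun α => if vl θ α = c then ∏ l, μ l ^ α l else 0) (DR N d U)
      (by
        intro α hα β hβ c' hc'
        have h2 := hvl α hα β hβ c' hc'
        simp only [h2]
        split_ifs with h3
        · rw [hμT α hα, hμT β hβ, hc' z0, mul_pow]
        · rw [mul_zero])
      (fun α hα => ⟨z0, hTne α hα⟩) (DR N d U) (Finset.Subset.refl _)
      (Finset.card_le_card fun α hα => (mem_DR.1 hα).1) (fun α => F.coeff α) hrel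
    rw [← h1, Finset.sum_filter]
    refine Finset.sum_congr rfl fun α _ => ?_
    rw [mul_ite, mul_zero]
  refine ⟨U, μ, θ, (hU i).2 hi, (hU j).2 hj, ?_, ?_, ?_⟩
  · rw [hθ, hθ, hgi, hgj]
    have h1 : h i z0 ≠ 0 := by
      have := hz0 i
      rwa [hgi] at this
    have h2 : h j z0 ≠ 0 := by
      have := hz0 j
      rwa [hgj] at this
    intro h3
    apply hW
    simp only [logDeriv_apply] at h3
    field_simp at h3
    linear_combination h3
  · intro l _
    rw [hμ]
    exact pow_ne_zero _ (hz0 l)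
  · intro τ
    have h1 : ∑ α ∈ DR N d U, F.coeff α * (∏ l, μ l ^ α l) * Complex.exp (τ * vl θ α) = 0 := by
      rw [← Finset.sum_fiberwise_of_maps_to (g := vl θ) (t := (DR N d U).image (vl θ))
        (fun α hα => Finset.mem_image_of_mem _ hα)]
      refine Finset.sum_eq_zero fun c _ => ?_
      have h2 : ∑ α ∈ DR N d U with vl θ α = c,
          F.coeff α * (∏ l, μ l ^ α l) * Complex.exp (τ * vl θ α) =
          (∑ α ∈ DR N d U with vl θ α = c, F.coeff α * ∏ l, μ l ^ α l) *
            Complex.exp (τ * c) := by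
        rw [Finset.sum_mul]
        refine Finset.sum_congr rfl fun α hα => ?_
        rw [(Finset.mem_filter.1 hα).2]
      rw [h2, hcls c, zero_mul]
    refine Eq.trans ?_ h1
    rw [expand hF, map_sum, ← Finset.sum_subset
      (s₁ := DR N d U) (fun α hα => (mem_DR.1 hα).1)]
    · refine Finset.sum_congr rfl fun α hα => ?_
      rw [eval_monomial, Finsupp.prod_fintype _ _ (fun l => pow_zero _), mul_assoc]
      have h4 : (coeff α (∑ α ∈ Dl N d, monomial α (F.coeff α))) = F.coeff α := by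
        rw [← expand hF]
      rw [h4]
      congr 1
      unfold vl
      rw [Finset.mul_sum, Complex.exp_sum, ← Finset.prod_mul_distrib]
      refine Finset.prod_congr rfl fun l _ => ?_
      by_cases hl : l ∈ U
      · rw [if_pos hl, mul_pow, ← Complex.exp_nat_mul]
        congr 2
        ring
      · rw [if_neg hl, (mem_DR.1 hα).2 l hl]
        simp
    · intro α hα hαU
      obtain ⟨l, hl, hl'⟩ : ∃ l, l ∉ U ∧ α l ≠ 0 := by
        by_contra hcon
        push Not at hcon
        exact hαU (mem_DR.2 ⟨hα, hcon⟩)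
      rw [eval_monomial, Finsupp.prod_fintype _ _ (fun l => pow_zero _),
        Finset.prod_eq_zero (Finset.mem_univ l), mul_zero]
      rw [if_neg hl, zero_pow hl']

/-- **All simplices, in the full range of degrees** -/
theorem all_range (n d : ℕ) (hn : 1 ≤ n) (hd : 2 * n ≤ d) (hd' : 3 * n + 4 ≤ 2 * d) :
    General n d fun F => ∀ k : ℕ, ((n + 1 + d).choose d - 1) ^ 2 ≤ k →
      ∀ A : Matrix (Fin (n + 2)) (Fin (n + 2)) ℂ, IsUnit A →
      (∀ f : ℂ → Fin (n + 2) → ℂ, Curve f → (∀ z, eval (f z) F = 0) →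
        (∀ l, Ram k fun z => A.mulVec (f z) l) → Const f) ∧
      (∀ h : ℂ → Fin (n + 2) → ℂ, Curve h →
        (∀ z, eval (A.mulVec fun l => h z l ^ k) F = 0) → Const h) := by
  classical
  obtain ⟨P, hP, hP'⟩ := core4 (n + 2) d
  refine ⟨rename Subtype.val P, exists_form hP, ?_⟩
  intro F hF hPF k hk
  have hcardk : ((Dl (n + 2) d).card - 1) ^ 2 ≤ k := by
    rw [card_Dl]
    have : n + 2 + d - 1 = n + 1 + d := by omega
    rw [this]
    exact hk
  have h2 := two_le_card (N := n + 2) (d := d) (by omega) (by omega)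
  have hk1 : 1 ≤ k := by
    have h3 : 1 ≤ (Dl (n + 2) d).card - 1 := by omega
    have h4 : 1 ^ 2 ≤ ((Dl (n + 2) d).card - 1) ^ 2 := Nat.pow_le_pow_left h3 2
    omega
  have hPF' : eval (fun γ : Dl (n + 2) d => F.coeff γ) P ≠ 0 := by
    rw [eval_rename] at hPF
    exact hPF
  have key : ∀ A A' : Matrix (Fin (n + 2)) (Fin (n + 2)) ℂ, A' * A = 1 →
      ∀ h : Fin (n + 2) → ℂ → ℂ, (∀ l, Differentiable ℂ (h l)) →
      (∀ z, eval (A.mulVec fun l => h l z ^ k) F = 0) → ∀ i j : Fin (n + 2),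
      (∃ z, h i z ≠ 0) → (∃ z, h j z ≠ 0) → ∃ c : ℂ, ∀ z, h i z = c * h j z := by
    intro A A' hAA h hh h0 i j hi hj
    by_contra hcon
    have hcon' : ∀ c : ℂ, ∃ z, h i z ≠ c * h j z := by
      intro c
      by_contra h1
      push Not at h1
      exact hcon ⟨c, h1⟩
    obtain ⟨U, μ, θ, hiU, hjU, hθij, hμ, hcurve⟩ := analysis2 hcardk hk1
      (F := sub (fun l m => A l m) F) (sub_homogeneous _ hF) h hh
      (fun z => by rw [eval_mulVec]; exact h0 z) hi hj hcon'
    -- representatives of the frequencies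
    obtain ⟨ρ, hρ1, hρ2, hρ3⟩ : ∃ ρ : Fin (n + 2) → Fin (n + 2), (∀ l ∈ U, ρ l ∈ U) ∧
        (∀ l ∈ U, θ (ρ l) = θ l) ∧ ∀ l l', θ l = θ l' → ρ l = ρ l' := by
      refine ⟨fun l => if hl : ∃ l' ∈ U, θ l' = θ l then hl.choose else i, ?_, ?_, ?_⟩
      · intro l hl
        have hex : ∃ l' ∈ U, θ l' = θ l := ⟨l, hl, rfl⟩
        simp only [dif_pos hex]
        exact hex.choose_spec.1
      · intro l hl
        have hex : ∃ l' ∈ U, θ l' = θ l := ⟨l, hl, rfl⟩
        simp only [dif_pos hex]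
        exact hex.choose_spec.2
      · intro l l' hll
        simp only [hll]
    obtain ⟨R, hR⟩ : ∃ R, R = U.image ρ := ⟨_, rfl⟩
    have hRU : ∀ l ∈ R, l ∈ U := by
      intro l hl
      rw [hR] at hl
      obtain ⟨l', hl', rfl⟩ := Finset.mem_image.1 hl
      exact hρ1 l' hl'
    have hRρ : ∀ l ∈ R, ρ l = l := by
      intro l hl
      rw [hR] at hl
      obtain ⟨l', hl', rfl⟩ := Finset.mem_image.1 hl
      exact hρ3 _ _ (hρ2 l' hl')
    have hθR : ∀ l ∈ R, ∀ l' ∈ R, θ l = θ l' → l = l' := by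
      intro l hl l' hl' hll
      rw [← hRρ l hl, ← hRρ l' hl', hρ3 l l' hll]
    obtain ⟨v, hv⟩ : ∃ v : Fin (n + 2) → Fin (n + 2) → ℂ, ∀ l,
        v l = ∑ l' ∈ U with ρ l' = l, μ l' • (fun m => A m l') := ⟨_, fun _ => rfl⟩
    have hmul : ∀ c : Fin (n + 2) → ℂ,
        A.mulVec (fun l => if l ∈ U then μ l * c (ρ l) else 0) = ∑ l ∈ R, c l • v l := by
      intro c
      have e1 : A.mulVec (fun l => if l ∈ U then μ l * c (ρ l) else 0) =
          ∑ l' ∈ U, c (ρ l') • μ l' • (fun m => A m l') := by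
        funext m
        rw [Finset.sum_apply]
        show ∑ l, A m l * (if l ∈ U then μ l * c (ρ l) else 0) = _
        rw [← Finset.sum_subset (Finset.subset_univ U)]
        · refine Finset.sum_congr rfl fun l hl => ?_
          rw [if_pos hl]
          simp only [Pi.smul_apply, smul_eq_mul]
          ring
        · intro l _ hl
          rw [if_neg hl, mul_zero]
      rw [e1, ← Finset.sum_fiberwise_of_maps_to (g := ρ) (t := R)
        (fun l hl => by rw [hR]; exact Finset.mem_image_of_mem _ hl)]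
      refine Finset.sum_congr rfl fun l _ => ?_
      rw [hv, Finset.smul_sum]
      refine Finset.sum_congr rfl fun l' hl' => ?_
      rw [(Finset.mem_filter.1 hl').2]
    have hind : LinearIndepOn ℂ v (R : Set (Fin (n + 2))) := by
      rw [linearIndepOn_finset_iff]
      intro c hc l hl
      rw [← hmul c] at hc
      have e1 : (fun l => if l ∈ U then μ l * c (ρ l) else 0) = (0 : Fin (n + 2) → ℂ) := by
        have e2 := congrArg A'.mulVec hc
        rwa [Matrix.mulVec_mulVec, hAA, Matrix.one_mulVec, Matrix.mulVec_zero] at e2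
      have e3 := congrFun e1 l
      simp only [if_pos (hRU l hl), hRρ l hl, Pi.zero_apply] at e3
      exact (mul_eq_zero.1 e3).resolve_left (hμ l (hRU l hl))
    have hcv : ∀ τ : ℂ, eval (∑ l ∈ R, Complex.exp (τ * θ l) • v l) F = 0 := by
      intro τ
      rw [← hmul fun l => Complex.exp (τ * θ l), ← eval_mulVec]
      refine Eq.trans ?_ (hcurve τ)
      congr 2
      funext l
      by_cases hl : l ∈ U
      · rw [if_pos hl, if_pos hl, hρ2 l hl]
      · rw [if_neg hl, if_neg hl]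
    have hiR : ρ i ∈ R := by rw [hR]; exact Finset.mem_image_of_mem _ hiU
    have hjR : ρ j ∈ R := by rw [hR]; exact Finset.mem_image_of_mem _ hjU
    have hRc : 1 < R.card := by
      rw [Finset.one_lt_card]
      refine ⟨ρ i, hiR, ρ j, hjR, ?_⟩
      intro h1
      apply hθij
      rw [← hρ2 i hiU, ← hρ2 j hjU, h1]
    refine hP' F hF hPF' R θ hθR v hind hcv hRc (by omega) ?_
    intro h3
    obtain ⟨s, hs⟩ : ∃ s, R.card = s + 3 := ⟨R.card - 3, by omega⟩
    rw [hs]
    have h4 : (n + 2) * (s + 3) - 2 = n * s + 3 * n + 2 * s + 4 := by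
      have : (n + 2) * (s + 3) = n * s + 3 * n + 2 * s + 4 + 2 := by ring
      omega
    have h5 : d * (s + 3 - 1) + 1 = d * s + 2 * d + 1 := by
      have : s + 3 - 1 = s + 2 := by omega
      rw [this]
      ring
    rw [h4, h5]
    have h6 : n * s + 2 * s ≤ d * s := by
      have : n + 2 ≤ d := by omega
      calc n * s + 2 * s = (n + 2) * s := by ring
        _ ≤ d * s := Nat.mul_le_mul_right _ this
    omega
  intro A hA
  have hdet : IsUnit A.det := (Matrix.isUnit_iff_isUnit_det A).1 hA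
  have e1 : A⁻¹ * A = 1 := Matrix.nonsing_inv_mul A hdet
  have e2 : A * A⁻¹ = 1 := Matrix.mul_nonsing_inv A hdet
  exact ⟨(curves hk1 A⁻¹ A e1 (key A⁻¹ A e2)).1, (curves hk1 A A⁻¹ e2 (key A A⁻¹ e1)).2⟩

end Pool.Agent.Y460.KH
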